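import Mathlib

/-! Definitions for antidirected paths in digraphs. -/

namespace Pool.Agent.Lib.MP_04ab3e_co

/-- `p` is an antidirected path of length `k` (that is, with `k` edges) in `D`: the `k + 1`
vertices are distinct, edge number `i` joins `p i` and `p (i + 1)` and is directed forwards when
`o i` is true and backwards otherwise, and consecutive edges have opposite directions. -/
def IsAntiPath {V : Type} (D : Digraph V) (k : ℕ) (p : Fin (k + 1) → V) : Prop :=
  Function.Injective p ∧ ∃ o : Fin k → Bool,
    (∀ i : Fin k, (o i = true → D.Adj (p i.castSucc) (p i.succ)) ∧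
      (o i = false → D.Adj (p i.succ) (p i.castSucc))) ∧
    ∀ i j : Fin k, (j : ℕ) = i + 1 → o j ≠ o i

/-- Any two distinct vertices are the end vertices of an antidirected path. -/
def AntiConnected {V : Type} (D : Digraph V) : Prop :=
  ∀ u v : V, u ≠ v → ∃ (m : ℕ) (p : Fin (m + 1) → V),
    IsAntiPath D m p ∧ p 0 = u ∧ p (Fin.last m) = v

end Pool.Agent.Lib.MP_04ab3e_co
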