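import Pool.Agent.Lib.MP_04ab3e_co.Tail
import Pool.Agent.Lib.MP_04ab3e_co.Defs

-- part Pool.Agent.Lib.MP_04ab3e_co.Bucket
section

/-! The bucket lemma and the resulting bound on degrees. -/

set_option linter.unusedSectionVars false

namespace Pool.Agent.Lib.MP_04ab3e_co

open Finset

variable {V : Type} [DecidableEq V] [Fintype V] {D : V → V → Prop}

/-- Extensions of maximal total length. -/
lemma exists_ext (y : V × Bool) (R : Finset V) (s : ℕ) (F : Finset (List (V × Bool)))
    (hs : ∀ l, Rooted D y R l → l.length ≤ s) (hF : ∀ T ∈ F, Rooted D y R T) :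
    ∃ E : List (V × Bool) → List (V × Bool), (∀ T ∈ F, Rooted D y R (E T ++ T)) ∧
      (∀ T ∈ F, ∀ T' ∈ F, T ≠ T' → Disjoint (vs (E T)) (vs (E T'))) ∧
      (∀ T ∈ F, ∀ u tl, E T ++ T = u :: tl →
        nbr D u ⊆ R ∪ vs (E T ++ T) ∪ F.biUnion (fun T' => vs (E T'))) := by
  classical
  obtain ⟨E, ⟨hE1, hE2⟩, hmax⟩ := exists_max
    (fun E : List (V × Bool) → List (V × Bool) => (∀ T ∈ F, Rooted D y R (E T ++ T)) ∧
      ∀ T ∈ F, ∀ T' ∈ F, T ≠ T' → Disjoint (vs (E T)) (vs (E T')))
    (fun E => ∑ T ∈ F, (E T).length) (F.card * s)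
    ⟨fun _ => [], by simpa using hF, by simp⟩
    (by
      intro E hE
      have : ∑ T ∈ F, (E T).length ≤ ∑ _T ∈ F, s := by
        refine Finset.sum_le_sum (fun T hT => ?_)
        have := hs _ (hE.1 T hT)
        simp only [List.length_append] at this; omega
      simpa using this)
  refine ⟨E, hE1, hE2, ?_⟩
  intro T hT u tl he w hw
  by_contra hcon
  simp only [Finset.mem_union, not_or, Finset.mem_biUnion, not_exists, not_and] at hcon
  obtain ⟨⟨hwR, hwT⟩, hwU⟩ := hcon
  have hnew := hmax (Function.update E T ((w, !u.2) :: E T)) ⟨?_, ?_⟩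
  · have h1 : ∑ T' ∈ F, (Function.update E T ((w, !u.2) :: E T) T').length =
        ∑ T' ∈ F, (E T').length + 1 := by
      rw [← Finset.add_sum_erase F _ hT, ← Finset.add_sum_erase F (fun T' => (E T').length) hT]
      have : ∑ T' ∈ F.erase T, (Function.update E T ((w, !u.2) :: E T) T').length =
          ∑ T' ∈ F.erase T, (E T').length := by
        refine Finset.sum_congr rfl (fun T' hT' => ?_)
        rw [Function.update_of_ne (Finset.ne_of_mem_erase hT')]
      rw [this, Function.update_self]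
      simp only [List.length_cons]; omega
    omega
  · intro T' hT'
    by_cases e : T' = T
    · subst e
      rw [Function.update_self]
      refine Rooted.of_append (hF T' hT') ?_ ?_
      · rw [List.cons_append]
        refine P.cons (hE1 T' hT').1 hwT ?_
        intro z hz
        rw [he] at hz
        simp only [List.head?_cons, Option.mem_def, Option.some.injEq] at hz
        subst hz
        exact adj_symm (mem_nbr.1 hw)
      · rw [vs_cons, Finset.disjoint_insert_left]
        refine ⟨hwR, ?_⟩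
        have := (hE1 T' hT').2.2
        rw [vs_append, Finset.disjoint_union_left] at this
        exact this.1
    · rw [Function.update_of_ne e]; exact hE1 T' hT'
  · intro T1 h1 T2 h2 hne
    by_cases e1 : T1 = T
    · subst e1
      rw [Function.update_self, Function.update_of_ne (Ne.symm hne), vs_cons,
        Finset.disjoint_insert_left]
      exact ⟨hwU T2 h2, hE2 T1 h1 T2 h2 hne⟩
    · by_cases e2 : T2 = T
      · subst e2
        rw [Function.update_self, Function.update_of_ne e1, vs_cons, Finset.disjoint_insert_right]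
        exact ⟨hwU T1 h1, hE2 T1 h1 T2 h2 hne⟩
      · rw [Function.update_of_ne e1, Function.update_of_ne e2]
        exact hE2 T1 h1 T2 h2 hne

lemma bucket (hirr : ∀ v, ¬ D v v) (δ k η : ℕ) (hδ : ∀ u, δ ≤ (nbr D u).card)
    (hk : ∀ l, P D l → l.length ≤ k)
    (hnum : k + 2 + 2 * η + 2 * (4 * η * (2 * η + 1)) ≤ 2 * δ)
    (y : V × Bool) (R : Finset V) (hy : y.1 ∈ R) (s q : ℕ)
    (hs : ∀ l, Rooted D y R l → l.length ≤ s) (hsq : s ≤ q + η) (hq : s < 2 * q + 1)
    (F : Finset (List (V × Bool))) (hF : ∀ T ∈ F, Rooted D y R T ∧ T.length = q)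
    (hFd : ∀ T ∈ F, ∀ T' ∈ F, T ≠ T' → Disjoint (vs T) (vs T')) :
    F.card ≤ 4 * (2 * η + 1) * δ * R.card := by
  classical
  have hRpos : 1 ≤ R.card := Finset.card_pos.2 ⟨_, hy⟩
  have hδpos : 1 ≤ δ := by omega
  by_cases hbig : k < 2 * q + 1
  · have : F.card ≤ 1 := by
      rw [Finset.card_le_one]
      intro T hT T' hT'
      by_contra hne
      obtain ⟨⟨hP, ⟨x, hx, hxy⟩, hdis⟩, hl⟩ := hF T hT
      obtain ⟨⟨hP', ⟨x', hx', hxy'⟩, hdis'⟩, hl'⟩ := hF T' hT'
      have hPP : P D (T ++ y :: T'.reverse) := by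
        refine P.append hP (P.cons hP'.reverse ?_ ?_) ?_ ?_
        · rw [vs_reverse]; exact fun h => Finset.disjoint_left.1 hdis' h hy
        · intro z hz
          rw [List.head?_reverse, Option.mem_def, Option.mem_def.1 hx'] at hz
          cases hz; exact hxy'
        · rw [vs_cons, vs_reverse, Finset.disjoint_insert_right]
          exact ⟨fun h => Finset.disjoint_left.1 hdis h hy, hFd T hT T' hT' hne⟩
        · intro a ha b hb
          rw [Option.mem_def, Option.mem_def.1 hx] at ha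
          simp only [List.head?_cons, Option.mem_def, Option.some.injEq] at hb
          cases ha; subst hb; exact adj_symm hxy
      have := hk _ hPP
      simp only [List.length_append, List.length_cons, List.length_reverse] at this
      omega
    have h2 : 1 ≤ 4 * (2 * η + 1) * δ * R.card := Nat.mul_pos (Nat.mul_pos (by omega) hδpos) hRpos
    omega
  obtain ⟨E, hE1, hE2, hE3⟩ := exists_ext y R s F hs (fun T hT => (hF T hT).1)
  have hElen : ∀ T ∈ F, (E T).length ≤ η := by
    intro T hT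
    have := hs _ (hE1 T hT)
    have h2 := (hF T hT).2
    simp only [List.length_append] at this; omega
  -- independent subfamily
  obtain ⟨I, hIF, hIc, hI⟩ := indep_set η
    (fun T => F.filter (fun T' => ¬ Disjoint (vs (E T)) (vs T'))) _ F rfl (by
      intro T hT
      have h1 : (F.filter (fun T' => ¬ Disjoint (vs (E T)) (vs T'))).card ≤ (vs (E T)).card := by
        have : ∀ T' ∈ F.filter (fun T' => ¬ Disjoint (vs (E T)) (vs T')),
            ∃ v, v ∈ vs (E T) ∧ v ∈ vs T' := by
          intro T' hT'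
          have := (Finset.mem_filter.1 hT').2
          rwa [Finset.not_disjoint_iff] at this
        have : Nonempty V := ⟨y.1⟩
        choose! f hf using ‹∀ T' ∈ F.filter (fun T' => ¬ Disjoint (vs (E T)) (vs T')), _›
        refine Finset.card_le_card_of_injOn f (fun T' hT' => (hf T' hT').1) ?_
        intro T1 h1 T2 h2 he
        by_contra hne
        exact Finset.disjoint_left.1 (hFd T1 (Finset.mem_filter.1 h1).1 T2
          (Finset.mem_filter.1 h2).1 hne) (hf T1 h1).2 (he ▸ (hf T2 h2).2)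
      exact h1.trans ((card_vs_le _).trans (hElen T hT)))
  have hdisj : ∀ T ∈ I, ∀ T' ∈ I, T ≠ T' → Disjoint (vs (E T ++ T)) (vs (E T' ++ T')) := by
    intro T hT T' hT' hne
    have h1 := hI T hT T' hT' hne
    have h2 := hI T' hT' T hT (Ne.symm hne)
    simp only [Finset.mem_filter, not_and, not_not] at h1 h2
    rw [vs_append, vs_append, Finset.disjoint_union_left, Finset.disjoint_union_right,
      Finset.disjoint_union_right]
    exact ⟨⟨hE2 T (hIF hT) T' (hIF hT') hne, h1 (hIF hT')⟩,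
      (h2 (hIF hT)).symm, hFd T (hIF hT) T' (hIF hT') hne⟩
  have hdec : ∀ T ∈ F, ∃ u tl, E T ++ T = u :: tl := by
    intro T hT
    exact List.exists_cons_of_ne_nil (hE1 T hT).ne_nil
  have : Inhabited (V × Bool) := ⟨y⟩
  choose! u tl hu using hdec
  set U : Finset V := F.biUnion (fun T' => vs (E T')) with hU
  have hUc : U.card ≤ η * F.card := by
    refine Finset.card_biUnion_le.trans ?_
    have : ∑ T ∈ F, (vs (E T)).card ≤ ∑ _T ∈ F, η :=
      Finset.sum_le_sum (fun T hT => (card_vs_le _).trans (hElen T hT))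
    simpa [mul_comm] using this
  have hUR : ∀ w ∈ U, w ∉ R := by
    intro w hw hwR
    obtain ⟨T, hT, hwT⟩ := Finset.mem_biUnion.1 hw
    have := (hE1 T hT).2.2
    rw [vs_append, Finset.disjoint_union_left] at this
    exact Finset.disjoint_left.1 this.1 hwT hwR
  let a : List (V × Bool) → Finset V := fun T => U.filter (fun w => w ∈ nbr D (u T) ∧ w ∉ vs (E T ++ T))
  have hlenq : ∀ T ∈ F, q ≤ (u T :: tl T).length := by
    intro T hT
    rw [← hu T hT, List.length_append, (hF T hT).2]; omega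
  -- exclusivity
  have hexcl : ∀ w ∈ U, ∀ b : Bool, (I.filter (fun T => w ∈ a T ∧ (u T).2 = b)).card ≤ 1 := by
    intro w hw b
    rw [Finset.card_le_one]
    intro T hT T' hT'
    by_contra hne
    simp only [Finset.mem_filter, a] at hT hT'
    obtain ⟨hTI, ⟨_, hn, hv⟩, hb⟩ := hT
    obtain ⟨hTI', ⟨_, hn', hv'⟩, hb'⟩ := hT'
    have e := hu T (hIF hTI)
    have e' := hu T' (hIF hTI')
    have r1 := hE1 T (hIF hTI)
    have r2 := hE1 T' (hIF hTI')
    have hd := hdisj T hTI T' hTI' hne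
    rw [e] at r1 hv hd
    rw [e'] at r2 hv' hd
    have a1 := mem_nbr.1 hn
    have a2 := mem_nbr.1 hn'
    rw [hb] at a1
    rw [hb'] at a2
    have hP := P.link r1.1 r2.1 hd (w := (w, !b)) hv hv' a1 a2
    have hR : Rooted D y R (((u T :: tl T).reverse ++ [(w, !b)]) ++ (u T' :: tl T')) := by
      refine Rooted.of_append r2 (by simpa using hP) ?_
      rw [vs_append, vs_reverse, Finset.disjoint_union_left]
      exact ⟨r1.2.2, by simpa using hUR w hw⟩
    have := hs _ hR
    have l1 := hlenq T (hIF hTI)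
    have l2 := hlenq T' (hIF hTI')
    simp only [List.length_append, List.length_reverse, List.length_cons, List.length_nil]
      at this l1 l2
    omega
  have hsum : ∑ T ∈ I, (a T).card ≤ 2 * U.card := by
    have h1 : ∑ T ∈ I, (a T).card = ∑ w ∈ U, (I.filter (fun T => w ∈ a T)).card := by
      have : ∀ T, (a T).card = (U.filter (fun w => w ∈ a T)).card := by
        intro T
        congr 1
        ext w
        simp only [a, Finset.mem_filter]
        tauto
      simp only [this, Finset.card_filter]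
      exact Finset.sum_comm
    rw [h1]
    have : ∑ w ∈ U, (I.filter (fun T => w ∈ a T)).card ≤ ∑ _w ∈ U, 2 := by
      refine Finset.sum_le_sum (fun w hw => ?_)
      have h2 := hexcl w hw true
      have h3 := hexcl w hw false
      have h4 := Finset.card_filter_add_card_filter_not (s := I.filter (fun T => w ∈ a T))
        (fun T => (u T).2 = true)
      simp only [Finset.filter_filter, Bool.not_eq_true] at h4
      omega
    simpa [mul_comm] using this
  set A := 4 * η * (2 * η + 1) with hA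
  have hbad : 2 * (I.filter (fun T => ¬ (a T).card ≤ A)).card ≤ I.card := by
    have h1 : (A + 1) * (I.filter (fun T => ¬ (a T).card ≤ A)).card ≤ ∑ T ∈ I, (a T).card := by
      calc (A + 1) * (I.filter (fun T => ¬ (a T).card ≤ A)).card
          = ∑ _T ∈ I.filter (fun T => ¬ (a T).card ≤ A), (A + 1) := by simp [mul_comm]
        _ ≤ ∑ T ∈ I.filter (fun T => ¬ (a T).card ≤ A), (a T).card :=
          Finset.sum_le_sum (fun T hT => by have := (Finset.mem_filter.1 hT).2; omega)
        _ ≤ _ := Finset.sum_le_sum_of_subset (Finset.filter_subset _ _)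
    have h2 : 2 * (∑ T ∈ I, (a T).card) ≤ A * I.card := by
      have h3 : U.card ≤ η * ((2 * η + 1) * I.card) := hUc.trans (Nat.mul_le_mul_left _ hIc)
      rw [hA]; nlinarith
    by_contra hcon
    have h5 : I.card < 2 * (I.filter (fun T => ¬ (a T).card ≤ A)).card := by omega
    nlinarith
  have hgood := Finset.card_filter_add_card_filter_not (s := I) (fun T => (a T).card ≤ A)
  set G := I.filter (fun T => (a T).card ≤ A) with hG
  obtain ⟨ρ, hρ⟩ : ∃ ρ : Bool, G.card ≤ 2 * (G.filter (fun T => (u T).2 = ρ)).card := by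
    have h4 := Finset.card_filter_add_card_filter_not (s := G) (fun T => (u T).2 = true)
    simp only [Bool.not_eq_true] at h4
    by_cases h5 : G.card ≤ 2 * (G.filter (fun T => (u T).2 = true)).card
    · exact ⟨true, h5⟩
    · exact ⟨false, by omega⟩
  set Z := G.filter (fun T => (u T).2 = ρ) with hZ
  have hZle : Z.card ≤ δ * R.card := by
    by_contra hcon
    obtain ⟨R', hR', Z', hZ', hne, h3, h4⟩ := zlemma δ (fun T => nbr D (u T)) _ R Z rfl (by omega)
    have hZI : ∀ T ∈ Z', T ∈ I ∧ (a T).card ≤ A ∧ (u T).2 = ρ := by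
      intro T hT
      have := hZ' hT
      simp only [hZ, hG, Finset.mem_filter] at this
      tauto
    obtain ⟨l, hl, hlen⟩ := alt_path (D := D) Z' u tl R R' ρ q (δ - q - η - A) δ hne
      (fun T hT => by rw [← hu T (hIF (hZI T hT).1)]; exact (hE1 T (hIF (hZI T hT).1)).1)
      (fun T hT => by rw [← hu T (hIF (hZI T hT).1)]; exact (hE1 T (hIF (hZI T hT).1)).2.2)
      (fun T hT T' hT' hne => by
        rw [← hu T (hIF (hZI T hT).1), ← hu T' (hIF (hZI T' hT').1)]
        exact hdisj T (hZI T hT).1 T' (hZI T' hT').1 hne)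
      (fun T hT => (hZI T hT).2.2) (fun T hT => hlenq T (hIF (hZI T hT).1))
      (fun T hT => by
        have hTF := hIF (hZI T hT).1
        have h5 := hE3 T hTF _ _ (hu T hTF)
        have h6 : nbr D (u T) ⊆ (nbr D (u T) ∩ R) ∪ vs (E T ++ T) ∪ a T := by
          intro w hw
          have := h5 hw
          simp only [Finset.mem_union, Finset.mem_inter, a, Finset.mem_filter] at this ⊢
          by_cases hv : w ∈ vs (E T ++ T) <;> tauto
        have h7 := Finset.card_le_card h6
        have h8 := Finset.card_union_le ((nbr D (u T) ∩ R) ∪ vs (E T ++ T)) (a T)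
        have h9 := Finset.card_union_le (nbr D (u T) ∩ R) (vs (E T ++ T))
        have h10 := card_vs_le (E T ++ T)
        have h11 := hs _ (hE1 T hTF)
        have h12 := hδ (u T)
        have h13 := (hZI T hT).2.1
        omega)
      h3 h4 (by omega) (by omega)
    have := hk l hl
    omega
  have hI4 : I.card ≤ 4 * (δ * R.card) := by omega
  calc F.card ≤ (2 * η + 1) * I.card := hIc
    _ ≤ (2 * η + 1) * (4 * (δ * R.card)) := Nat.mul_le_mul_left _ hI4
    _ = _ := by ring

lemma degree_aux (hirr : ∀ v, ¬ D v v) (δ k η : ℕ) (hη : 1 ≤ η) (hδ : ∀ u, δ ≤ (nbr D u).card)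
    (hk : ∀ l, P D l → l.length ≤ k)
    (hnum : k + 2 + 2 * η + 2 * (4 * η * (2 * η + 1)) ≤ 2 * δ) (y : V × Bool) :
    ∀ (s : ℕ) (R : Finset V), y.1 ∈ R → (∀ l, Rooted D y R l → l.length ≤ s) →
      (nbr D y).card ≤ R.card * (1 + k * (4 * (2 * η + 1) * δ)) ^ (min s (2 * η) + s / η) := by
  classical
  intro s
  induction s using Nat.strong_induction_on with
  | _ s ih =>
    intro R hy hs
    rcases Nat.eq_zero_or_pos s with rfl | hpos
    · have : nbr D y ⊆ R := by
        intro w hw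
        by_contra hwR
        have := hs [(w, !y.2)] ⟨P.single _, ⟨(w, !y.2), by simp, mem_nbr.1 hw⟩, by simpa using hwR⟩
        simp at this
      simpa using Finset.card_le_card this
    obtain ⟨q, hq1, hq2, hq3, hq4, hq5⟩ : ∃ q, s ≤ q + η ∧ s < 2 * q + 1 ∧ 1 ≤ q ∧ q ≤ s ∧
        min (q - 1) (2 * η) + (q - 1) / η + 1 ≤ min s (2 * η) + s / η := by
      by_cases h : 2 * η ≤ s
      · refine ⟨s - η, by omega, by omega, by omega, by omega, ?_⟩
        have h1 : (s - η - 1) / η + 1 ≤ s / η := by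
          rw [← Nat.add_div_right _ hη]
          exact Nat.div_le_div_right (by omega)
        omega
      · refine ⟨s, by omega, by omega, by omega, by omega, ?_⟩
        have h1 : (s - 1) / η ≤ s / η := Nat.div_le_div_right (by omega)
        omega
    obtain ⟨F, ⟨hF, hFd⟩, hmax⟩ := exists_max
      (fun F : Finset (List (V × Bool)) => (∀ T ∈ F, Rooted D y R T ∧ T.length = q) ∧
        ∀ T ∈ F, ∀ T' ∈ F, T ≠ T' → Disjoint (vs T) (vs T'))
      (fun F => F.card) (4 * (2 * η + 1) * δ * R.card) ⟨∅, by simp, by simp⟩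
      (fun F hF => bucket hirr δ k η hδ hk hnum y R hy s q hs hq1 hq2 F hF.1 hF.2)
    have hFc := bucket hirr δ k η hδ hk hnum y R hy s q hs hq1 hq2 F hF hFd
    set R' := R ∪ F.biUnion vs with hR'
    have hR'c : R'.card ≤ R.card * (1 + k * (4 * (2 * η + 1) * δ)) := by
      have h1 : (F.biUnion vs).card ≤ k * F.card := by
        refine Finset.card_biUnion_le.trans ?_
        have : ∑ T ∈ F, (vs T).card ≤ ∑ _T ∈ F, k :=
          Finset.sum_le_sum (fun T hT => (card_vs_le _).trans (hk _ (hF T hT).1.1))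
        simpa [mul_comm] using this
      have h2 := Finset.card_union_le R (F.biUnion vs)
      have h3 := Nat.mul_le_mul_left k hFc
      rw [hR']
      nlinarith
    have hs' : ∀ l, Rooted D y R' l → l.length ≤ q - 1 := by
      intro l hl
      by_contra hcon
      have hsplit : l = l.take (l.length - q) ++ l.drop (l.length - q) := by simp
      have hlen : (l.drop (l.length - q)).length = q := by simp; omega
      have hne : l.drop (l.length - q) ≠ [] := by
        intro e; rw [e] at hlen; simp at hlen; omega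
      have hT : Rooted D y R' (l.drop (l.length - q)) := by
        rw [hsplit] at hl; exact hl.right hne
      set T := l.drop (l.length - q)
      have hTd : ∀ T' ∈ F, Disjoint (vs T) (vs T') := fun T' hT' =>
        Finset.disjoint_of_subset_right
          ((Finset.subset_biUnion_of_mem vs hT').trans Finset.subset_union_right) hT.2.2
      have hTF : T ∉ F := by
        intro h
        have := hTd T h
        rw [disjoint_self, Finset.bot_eq_empty, ← Finset.card_eq_zero, hT.1.card_vs] at this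
        omega
      have := hmax (insert T F) ⟨?_, ?_⟩
      · rw [Finset.card_insert_of_notMem hTF] at this; omega
      · intro T' hT'
        rcases Finset.mem_insert.1 hT' with e | h
        · rw [e]
          exact ⟨⟨hT.1, hT.2.1, Finset.disjoint_of_subset_right Finset.subset_union_left hT.2.2⟩,
            hlen⟩
        · exact hF T' h
      · intro T1 h1 T2 h2 hne
        rcases Finset.mem_insert.1 h1 with e1 | h1
        · rcases Finset.mem_insert.1 h2 with e2 | h2
          · exact absurd (e1.trans e2.symm) hne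
          · rw [e1]; exact hTd T2 h2
        · rcases Finset.mem_insert.1 h2 with e2 | h2
          · rw [e2]; exact (hTd T1 h1).symm
          · exact hFd T1 h1 T2 h2 hne
    have := ih (q - 1) (by omega) R' (Finset.mem_union_left _ hy) hs'
    set G := 1 + k * (4 * (2 * η + 1) * δ) with hG
    have hG1 : 1 ≤ G := by omega
    calc (nbr D y).card ≤ R'.card * G ^ (min (q - 1) (2 * η) + (q - 1) / η) := this
      _ ≤ R.card * G * G ^ (min (q - 1) (2 * η) + (q - 1) / η) := Nat.mul_le_mul_right _ hR'c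
      _ = R.card * G ^ (min (q - 1) (2 * η) + (q - 1) / η + 1) := by ring
      _ ≤ _ := Nat.mul_le_mul_left _ (Nat.pow_le_pow_right hG1 hq5)

theorem degree_bound (hirr : ∀ v, ¬ D v v) (δ k η : ℕ) (hη : 1 ≤ η)
    (hδ : ∀ u, δ ≤ (nbr D u).card) (hk : ∀ l, P D l → l.length ≤ k)
    (hnum : k + 2 + 2 * η + 2 * (4 * η * (2 * η + 1)) ≤ 2 * δ) (y : V × Bool) :
    (nbr D y).card ≤ (1 + k * (4 * (2 * η + 1) * δ)) ^ (2 * η + k / η) := by
  have := degree_aux hirr δ k η hη hδ hk hnum y k {y.1} (by simp) (fun l hl => hk l hl.1)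
  rw [Finset.card_singleton, one_mul] at this
  exact this.trans (Nat.pow_le_pow_right (by omega) (by omega))

end Pool.Agent.Lib.MP_04ab3e_co
end

-- part Pool.Agent.Lib.MP_04ab3e_co.Link
section

/-! From a good balanced role assignment to a long path. -/

set_option linter.unusedSectionVars false

namespace Pool.Agent.Lib.MP_04ab3e_co

open Finset

variable {V : Type} [DecidableEq V] [Fintype V] {D : V → V → Prop}

lemma degA_le_add_two {A A' : V × Bool → Prop} {u : V × Bool} (p q : V)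
    (h : ∀ w, A w → adj D u w → w.1 ≠ p → w.1 ≠ q → A' w) : degA D A u ≤ degA D A' u + 2 := by
  classical
  unfold degA
  refine le_trans (Finset.card_le_card (t := insert p (insert q
    ((nbr D u).filter (fun w => A' (w, !u.2))))) ?_) ?_
  · intro w hw
    rw [Finset.mem_filter] at hw
    simp only [Finset.mem_insert, Finset.mem_filter]
    by_cases h1 : w = p
    · exact Or.inl h1
    by_cases h2 : w = q
    · exact Or.inr (Or.inl h2)
    exact Or.inr (Or.inr ⟨hw.1, h _ hw.2 (mem_nbr.1 hw.1) h1 h2⟩)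
  · have h1 := Finset.card_insert_le p (insert q ((nbr D u).filter (fun w => A' (w, !u.2))))
    have h2 := Finset.card_insert_le q ((nbr D u).filter (fun w => A' (w, !u.2)))
    convert h1.trans (Nat.add_le_add_right h2 1) using 1

lemma exists_of_degA_pos {A : V × Bool → Prop} {u : V × Bool} (h : 0 < degA D A u) :
    ∃ w, A w ∧ adj D u w := by
  classical
  obtain ⟨w, hw⟩ := Finset.card_pos.1 h
  rw [Finset.mem_filter] at hw
  exact ⟨_, hw.2, mem_nbr.1 hw.1⟩

theorem good_partition_false (hirr : ∀ v, ¬ D v v) (φ : V → Bool) (k d : ℕ)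
    (hk : ∀ l, P D l → l.length ≤ k)
    (hd : ∀ u, d ≤ degA D (fun x => x.2 = φ x.1) u)
    (hB : ∀ a b : V × Bool, Relation.ReflTransGen (adj D) a b)
    (hbal : ∀ r ρ, 2 * r + 2 ≤ Fintype.card V → r + 1 ≤ (univ.filter (fun v => φ v = ρ)).card)
    (hn : k + 1 ≤ Fintype.card V) (hkd : k + 9 ≤ 4 * d) : False := by
  classical
  by_cases hconn : ∀ a b : V × Bool, a.2 = φ a.1 → b.2 = φ b.1 →
      Relation.ReflTransGen (fun x y => adj D x y ∧ y.2 = φ y.1) a b
  · exact connected_case φ k d hk (fun u _ => hd u) hconn hbal hn (by omega)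
  push Not at hconn
  obtain ⟨a1, a2, ha1, ha2, hnot⟩ := hconn
  set A : V × Bool → Prop := fun x => x.2 = φ x.1 with hAdef
  have hcf : ∀ a b, A a → A b → a.1 = b.1 → a = b := by
    intro a b ha hb e
    exact Prod.ext e (by rw [ha, hb, e])
  let K : V × Bool → Prop := fun x =>
    Relation.ReflTransGen (fun x y => adj D x y ∧ y.2 = φ y.1) a1 x
  have hKA : ∀ x, K x → A x := by
    intro x hx
    induction hx with
    | refl => exact ha1
    | tail _ h _ => exact h.2
  have hKc : ∀ x y, K x → adj D x y → A y → K y := fun x y hx h hy => hx.tail ⟨h, hy⟩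
  let χ : V × Bool → Prop := fun u => ∃ a, K a ∧ adj D u a
  have hχ1 : χ a1 := by
    obtain ⟨w, hw, h⟩ := exists_of_degA_pos (D := D) (A := A) (u := a1) (by have := hd a1; omega)
    exact ⟨w, hKc a1 w Relation.ReflTransGen.refl h hw, h⟩
  have hχ2 : ¬ χ a2 := by
    rintro ⟨a, ha, h⟩
    exact hnot (hKc a a2 ha (adj_symm h) ha2)
  obtain ⟨u, w, huw, hu, hw⟩ : ∃ u w, adj D u w ∧ χ u ∧ ¬ χ w := by
    by_contra hcon
    push Not at hcon
    have : ∀ z, Relation.ReflTransGen (adj D) a1 z → χ z := by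
      intro z hz
      induction hz with
      | refl => exact hχ1
      | tail _ h ih => exact hcon _ _ h ih
    exact hχ2 (this a2 (hB a1 a2))
  obtain ⟨a, haK, hua⟩ := hu
  have huA : ¬ A u := fun h => hw ⟨u, hKc a u haK (adj_symm hua) h, adj_symm huw⟩
  have huw1 : u.1 ≠ w.1 := adj_ne hirr huw
  have hwr := adj_role huw
  -- first side
  have side : ∀ (B : V × Bool → Prop) (p q : V), (∀ x, B x → A x) →
      (∀ x y, B x → adj D x y → A y → B y) → ∀ s, B s → s.1 ≠ p → s.1 ≠ q →
      ∃ l, P D l ∧ (∀ x ∈ l, B x ∧ x.1 ≠ p ∧ x.1 ≠ q) ∧ l.getLast? = some s ∧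
        2 * (d - 2) ≤ l.length := by
    intro B p q h1 h2 s hs hp hq
    refine rooted_long (A := fun x => B x ∧ x.1 ≠ p ∧ x.1 ≠ q)
      (fun a b ha hb e => hcf a b (h1 a ha.1) (h1 b hb.1) e) k (d - 2) hk ?_ s ⟨hs, hp, hq⟩
    intro x hx
    have h3 := degA_le_add_two (D := D) (A := A) (A' := fun x => B x ∧ x.1 ≠ p ∧ x.1 ≠ q) (u := x)
      p q (fun y hy hxy e1 e2 => ⟨h2 x y hx.1 hxy hy, e1, e2⟩)
    have := hd x
    omega
  have hN : ∀ x y, (A x ∧ ¬ K x) → adj D x y → A y → (A y ∧ ¬ K y) :=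
    fun x y hx h hy => ⟨hy, fun hK => hx.2 (hKc y x hK (adj_symm h) hx.1)⟩
  have hdisj : ∀ l1 l2 : List (V × Bool), (∀ x ∈ l1, K x) → (∀ x ∈ l2, A x ∧ ¬ K x) →
      Disjoint (vs l1) (vs l2) := by
    intro l1 l2 h1 h2
    rw [Finset.disjoint_left]
    intro v hv1 hv2
    obtain ⟨x, hx, e1⟩ := mem_vs.1 hv1
    obtain ⟨y, hy, e2⟩ := mem_vs.1 hv2
    have := hcf x y (hKA x (h1 x hx)) (h2 y hy).1 (e1.trans e2.symm)
    exact (h2 y hy).2 (this ▸ h1 x hx)
  have hau : a.1 ≠ u.1 := (adj_ne hirr hua).symm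
  have haw : a.1 ≠ w.1 := by
    intro e
    have e2 : a = w := Prod.ext e (by rw [adj_role hua, hwr])
    obtain ⟨z, hz, h⟩ := exists_of_degA_pos (D := D) (A := A) (u := w) (by have := hd w; omega)
    exact hw ⟨z, hKc a z haK (e2 ▸ h) hz, h⟩
  obtain ⟨l1, hP1, hl1, hlast1, hlen1⟩ := side K u.1 w.1 hKA hKc a haK hau haw
  have hnot1 : ∀ (l : List (V × Bool)) (p : V), (∀ x ∈ l, x.1 ≠ p) → p ∉ vs l := by
    intro l p h hp
    obtain ⟨x, hx, e⟩ := mem_vs.1 hp
    exact h x hx e
  by_cases hwA : A w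
  · have hwK : ¬ K w := by
      intro h
      obtain ⟨z, hz, h'⟩ := exists_of_degA_pos (D := D) (A := A) (u := w) (by have := hd w; omega)
      exact hw ⟨z, hKc w z h h' hz, h'⟩
    obtain ⟨l2, hP2, hl2, hlast2, hlen2⟩ := side (fun x => A x ∧ ¬ K x) u.1 u.1
      (fun x hx => hx.1) hN w ⟨hwA, hwK⟩ huw1.symm huw1.symm
    have hPP : P D (l1 ++ u :: l2.reverse) := by
      refine P.append hP1 (P.cons hP2.reverse ?_ ?_) ?_ ?_
      · rw [vs_reverse]; exact hnot1 _ _ (fun x hx => (hl2 x hx).2.1)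
      · intro y hy
        rw [List.head?_reverse, hlast2] at hy
        cases hy; exact huw
      · rw [vs_cons, vs_reverse, Finset.disjoint_insert_right]
        exact ⟨hnot1 _ _ (fun x hx => (hl1 x hx).2.1),
          hdisj l1 l2 (fun x hx => (hl1 x hx).1) (fun x hx => (hl2 x hx).1)⟩
      · intro x hx y hy
        rw [hlast1] at hx
        simp only [List.head?_cons, Option.mem_def, Option.some.injEq] at hx hy
        subst hx; subst hy; exact adj_symm hua
    have := hk _ hPP
    simp only [List.length_append, List.length_cons, List.length_reverse] at this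
    omega
  · obtain ⟨z, hz, hwz⟩ := exists_of_degA_pos (D := D) (A := A) (u := w) (by have := hd w; omega)
    have hzK : ¬ K z := fun h => hw ⟨z, h, hwz⟩
    have hzu : z.1 ≠ u.1 := by
      intro e
      have e2 : z = u := Prod.ext e (by rw [adj_role hwz, hwr]; simp)
      exact huA (e2 ▸ hz)
    obtain ⟨l2, hP2, hl2, hlast2, hlen2⟩ := side (fun x => A x ∧ ¬ K x) u.1 w.1
      (fun x hx => hx.1) hN z ⟨hz, hzK⟩ hzu (adj_ne hirr hwz).symm
    have hPP : P D (l1 ++ u :: w :: l2.reverse) := by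
      refine P.append hP1 (P.cons (P.cons hP2.reverse ?_ ?_) ?_ ?_) ?_ ?_
      · rw [vs_reverse]; exact hnot1 _ _ (fun x hx => (hl2 x hx).2.2)
      · intro y hy
        rw [List.head?_reverse, hlast2] at hy
        cases hy; exact hwz
      · rw [vs_cons, vs_reverse, Finset.mem_insert, not_or]
        exact ⟨huw1, hnot1 _ _ (fun x hx => (hl2 x hx).2.1)⟩
      · intro y hy
        simp only [List.head?_cons, Option.mem_def, Option.some.injEq] at hy
        subst hy; exact huw
      · rw [vs_cons, vs_cons, vs_reverse, Finset.disjoint_insert_right,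
          Finset.disjoint_insert_right]
        exact ⟨hnot1 _ _ (fun x hx => (hl1 x hx).2.1), hnot1 _ _ (fun x hx => (hl1 x hx).2.2),
          hdisj l1 l2 (fun x hx => (hl1 x hx).1) (fun x hx => (hl2 x hx).1)⟩
      · intro x hx y hy
        rw [hlast1] at hx
        simp only [List.head?_cons, Option.mem_def, Option.some.injEq] at hx hy
        subst hx; subst hy; exact adj_symm hua
    have := hk _ hPP
    simp only [List.length_append, List.length_cons, List.length_reverse] at this
    omega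

lemma rtg_symm {a b : V × Bool} (h : Relation.ReflTransGen (adj D) a b) :
    Relation.ReflTransGen (adj D) b a := by
  induction h with
  | refl => exact Relation.ReflTransGen.refl
  | tail _ h ih => exact Relation.ReflTransGen.head (adj_symm h) ih

/-- Either the double cover is connected, or there is a long path already. -/
theorem cover_connected (k δ : ℕ) (hk : ∀ l, P D l → l.length ≤ k)
    (hδ : ∀ u, δ ≤ (nbr D u).card) (hkδ : k < 2 * δ)
    (hac : ∀ u v : V, u ≠ v → ∃ b b', Relation.ReflTransGen (adj D) (u, b) (v, b')) :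
    ∀ a b : V × Bool, Relation.ReflTransGen (adj D) a b := by
  classical
  have hconf : ∀ a : V × Bool, ∃ v, ∀ b, Relation.ReflTransGen (adj D) a (v, b) := by
    intro a
    by_contra hcon
    push Not at hcon
    obtain ⟨l, hP, _, _, hlen⟩ := rooted_long (D := D) (A := fun x => Relation.ReflTransGen (adj D) a x)
      (by
        intro x y hx hy e
        by_contra hne
        obtain ⟨b, hb⟩ := hcon x.1
        apply hb
        by_cases h : b = x.2
        · rw [h]; exact hx
        · have : y = (x.1, b) := by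
            refine Prod.ext e.symm ?_
            have h2 : x.2 ≠ y.2 := fun h3 => hne (Prod.ext e h3)
            revert h h2
            cases b <;> cases x.2 <;> cases y.2 <;> simp
          rw [← this]; exact hy) k δ hk
      (by
        intro u hu
        refine (hδ u).trans (le_of_eq ?_)
        unfold degA
        congr 1
        symm
        rw [Finset.filter_eq_self]
        intro w hw
        exact hu.tail (mem_nbr.1 hw)) a Relation.ReflTransGen.refl
    have := hk l hP
    omega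
  intro a b
  obtain ⟨v, hv⟩ := hconf a
  obtain ⟨w, hw⟩ := hconf b
  by_cases e : v = w
  · subst e; exact (hv true).trans (rtg_symm (hw true))
  · obtain ⟨b1, b2, h⟩ := hac v w e
    exact ((hv b1).trans h).trans (rtg_symm (hw b2))

end Pool.Agent.Lib.MP_04ab3e_co
end

-- part Pool.Agent.Lib.MP_04ab3e_co.Main
section

/-! Assembly of the asymptotic semidegree bound. -/

set_option linter.unusedSectionVars false

namespace Pool.Agent.Lib.MP_04ab3e_co

open Finset

lemma antipath_of_list {V : Type} (D : Digraph V) (k : ℕ) (l : List (V × Bool))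
    (hP : P D.Adj l) (hl : k + 1 ≤ l.length) : ∃ p, IsAntiPath D k p := by
  have hch := List.isChain_iff_getElem.1 hP.1
  refine ⟨fun i => (l[(i : ℕ)]'(by omega)).1, ?_, fun i => (l[(i : ℕ)]'(by omega)).2, ?_, ?_⟩
  · intro i j h
    have hnd := hP.2
    have h1 : (l.map Prod.fst)[(i : ℕ)]'(by simp; omega) =
        (l.map Prod.fst)[(j : ℕ)]'(by simp; omega) := by simpa using h
    exact Fin.ext ((List.Nodup.getElem_inj_iff hnd).1 h1)
  · intro i
    have := hch i (by omega)
    rcases this with ⟨h1, _, h3⟩ | ⟨h1, _, h3⟩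
    · exact ⟨fun _ => h3, fun h => absurd (h1.symm.trans h) (by simp)⟩
    · exact ⟨fun h => absurd (h1.symm.trans h) (by simp), fun _ => h3⟩
  · intro i j hij
    have := adj_role (hch i (by omega))
    simp only [hij]
    rw [this]; simp

lemma rtg_of_antipath {V : Type} (D : Digraph V) (m : ℕ) (p : Fin (m + 1) → V)
    (h : IsAntiPath D m p) :
    ∃ b b', Relation.ReflTransGen (adj D.Adj) (p 0, b) (p (Fin.last m), b') := by
  obtain ⟨_, o, h1, h2⟩ := h
  rcases Nat.eq_zero_or_pos m with rfl | hm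
  · exact ⟨true, true, Relation.ReflTransGen.refl⟩
  have step : ∀ i : Fin m, adj D.Adj (p i.castSucc, o i) (p i.succ, !o i) := by
    intro i
    cases hb : o i
    · exact Or.inr ⟨rfl, rfl, (h1 i).2 hb⟩
    · exact Or.inl ⟨rfl, rfl, (h1 i).1 hb⟩
  have key : ∀ i (hi : i < m), Relation.ReflTransGen (adj D.Adj) (p 0, o ⟨0, hm⟩)
      (p (Fin.succ ⟨i, hi⟩), !o ⟨i, hi⟩) := by
    intro i
    induction i with
    | zero => intro hi; exact Relation.ReflTransGen.single (step ⟨0, hi⟩)
    | succ i ih =>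
      intro hi
      have h3 := h2 ⟨i, by omega⟩ ⟨i + 1, hi⟩ rfl
      have h4 : (!o ⟨i, by omega⟩) = o ⟨i + 1, hi⟩ := by
        revert h3
        cases o ⟨i, _⟩ <;> cases o ⟨i + 1, hi⟩ <;> simp
      have h5 := ih (by omega)
      rw [h4] at h5
      exact h5.tail (step ⟨i + 1, hi⟩)
  have := key (m - 1) (by omega)
  have e : Fin.succ (⟨m - 1, by omega⟩ : Fin m) = Fin.last m := by
    apply Fin.ext; simp; omega
  rw [e] at this
  exact ⟨_, _, this⟩

variable {V : Type} [DecidableEq V] [Fintype V] {D : V → V → Prop}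

lemma greedy (hirr : ∀ v, ¬ D v v) (k δ : ℕ) (hk : ∀ l, P D l → l.length ≤ k)
    (hδ : ∀ u, δ ≤ (nbr D u).card) (v : V) : δ < k := by
  obtain ⟨l, hP, hmax⟩ := exists_max (fun l : List (V × Bool) => P D l) List.length k
    ⟨[], P.nil⟩ hk
  have h1 : 1 ≤ l.length := hmax [(v, true)] (P.single _)
  obtain ⟨a, l', rfl⟩ : ∃ a l', l = a :: l' := by
    apply List.exists_cons_of_ne_nil
    rintro rfl; simp at h1
  have h2 : nbr D a ⊆ vs l' := by
    intro w hw
    by_contra hcon
    have h3 := adj_ne hirr (mem_nbr.1 hw)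
    have := hmax ((w, !a.2) :: a :: l') (P.cons hP (by
      rw [vs_cons, Finset.mem_insert, not_or]; exact ⟨h3.symm, hcon⟩)
      (by simpa using adj_symm (mem_nbr.1 hw)))
    simp at this
  have h4 := (Finset.card_le_card h2).trans (card_vs_le l')
  have h5 := hk _ hP
  have h6 := hδ a
  simp only [List.length_cons] at h5
  omega

theorem core (hirr : ∀ v, ¬ D v v) (k δ η d : ℕ) (hη : 1 ≤ η)
    (hb : k + 2 + 2 * η + 2 * (4 * η * (2 * η + 1)) ≤ 2 * δ) (hc : k + 9 ≤ 4 * d)
    (hd : 2 * d ≤ δ)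
    (he : Real.exp (- ((δ : ℝ) - 2 * d) ^ 2 / (4 * δ)) * (4 * (((δ * (2 * (2 *
      (1 + k * (4 * (2 * η + 1) * δ)) ^ (2 * η + k / η))) : ℕ) : ℝ) + 1)) ≤ 1)
    (hδ : ∀ u, δ ≤ (nbr D u).card) (hn : k + 1 ≤ Fintype.card V)
    (hac : ∀ u v : V, u ≠ v → ∃ b b', Relation.ReflTransGen (adj D) (u, b) (v, b'))
    (hk : ∀ l, P D l → l.length ≤ k) : False := by
  have hL := degree_bound hirr δ k η hη hδ hk hb
  obtain ⟨φ, h1, h2⟩ := exists_partition δ _ d hδ hL (by omega) hd he
  exact good_partition_false hirr φ k d hk h1 (cover_connected k δ hk hδ (by omega) hac) h2 hn hc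

lemma numerics (k δ : ℕ) (hk1 : 1 ≤ k) (hδk : δ < k)
    (hδ : (k : ℝ) / 2 + 80 * (k : ℝ) ^ (9 / 10 : ℝ) ≤ δ) :
    ∃ η d : ℕ, 1 ≤ η ∧ k + 2 + 2 * η + 2 * (4 * η * (2 * η + 1)) ≤ 2 * δ ∧ k + 9 ≤ 4 * d ∧
      2 * d ≤ δ ∧
      Real.exp (- ((δ : ℝ) - 2 * d) ^ 2 / (4 * δ)) * (4 * (((δ * (2 * (2 *
        (1 + k * (4 * (2 * η + 1) * δ)) ^ (2 * η + k / η))) : ℕ) : ℝ) + 1)) ≤ 1 := by
  set m := Nat.sqrt (Nat.sqrt k) with hm
  have hm1 : 1 ≤ m := by
    rw [hm, Nat.le_sqrt, Nat.le_sqrt]; omega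
  have hm4 : m ^ 4 ≤ k := by
    have h1 := Nat.sqrt_le (Nat.sqrt k)
    have h2 := Nat.sqrt_le k
    calc m ^ 4 = (m * m) * (m * m) := by ring
      _ ≤ Nat.sqrt k * Nat.sqrt k := Nat.mul_le_mul h1 h1
      _ ≤ k := h2
  have hm5 : k ≤ 16 * m ^ 4 := by
    have h1 := Nat.lt_succ_sqrt (Nat.sqrt k)
    have h2 := Nat.lt_succ_sqrt k
    have h3 : Nat.succ (Nat.sqrt k) ≤ (m + 1) * (m + 1) := h1
    have h4 : (m + 1) * (m + 1) ≤ (2 * m) * (2 * m) := Nat.mul_le_mul (by omega) (by omega)
    calc k ≤ Nat.succ (Nat.sqrt k) * Nat.succ (Nat.sqrt k) := h2.le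
      _ ≤ ((2 * m) * (2 * m)) * ((2 * m) * (2 * m)) := Nat.mul_le_mul (h3.trans h4) (h3.trans h4)
      _ = _ := by ring
  have hkR : (1 : ℝ) ≤ k := by exact_mod_cast hk1
  set z : ℝ := (k : ℝ) ^ (1 / 20 : ℝ) with hz
  have hz1 : 1 ≤ z := Real.one_le_rpow hkR (by norm_num)
  have hzk : z ^ 20 = k := by
    rw [hz, ← Real.rpow_natCast, ← Real.rpow_mul (by positivity)]; norm_num
  have hz18 : (k : ℝ) ^ (9 / 10 : ℝ) = z ^ 18 := by
    rw [hz, ← Real.rpow_natCast, ← Real.rpow_mul (by positivity)]; norm_num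
  rw [hz18] at hδ
  have hmz : (m : ℝ) ≤ z ^ 5 := by
    have h1 : (m : ℝ) ^ 4 ≤ (z ^ 5) ^ 4 := by
      rw [← pow_mul, hzk]; exact_mod_cast hm4
    exact (pow_le_pow_iff_left₀ (by positivity) (by positivity) (by norm_num)).1 h1
  have hmR : (1 : ℝ) ≤ m := by exact_mod_cast hm1
  have hz10 : (m : ℝ) ^ 2 ≤ z ^ 18 := by
    calc (m : ℝ) ^ 2 ≤ (z ^ 5) ^ 2 := by gcongr
      _ = z ^ 10 := by ring
      _ ≤ z ^ 18 := pow_le_pow_right₀ hz1 (by norm_num)
  have hz18' : (1 : ℝ) ≤ z ^ 18 := one_le_pow₀ hz1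
  have hd2 : ((2 * (k / 4 + 3) : ℕ) : ℝ) ≤ (k : ℝ) / 2 + 6 := by
    have : 2 * (2 * (k / 4 + 3)) ≤ k + 12 := by omega
    have h2 : (2 : ℝ) * ((2 * (k / 4 + 3) : ℕ) : ℝ) ≤ k + 12 := by exact_mod_cast this
    linarith
  refine ⟨m, k / 4 + 3, hm1, ?_, by omega, ?_, ?_⟩
  · have : (k : ℝ) + 2 + 2 * m + 2 * (4 * m * (2 * m + 1)) ≤ 2 * δ := by nlinarith
    exact_mod_cast this
  · have : ((2 * (k / 4 + 3) : ℕ) : ℝ) ≤ δ := by linarith
    exact_mod_cast this
  · set G := 1 + k * (4 * (2 * m + 1) * δ) with hG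
    set X := 2 * m + k / m with hX
    have hmk : m ≤ k := le_trans (Nat.le_self_pow (by norm_num) m) hm4
    have hGk : G ≤ 13 * k ^ 3 := by
      have h1 : k * (4 * (2 * m + 1) * δ) ≤ k * (4 * (3 * k) * k) :=
        Nat.mul_le_mul_left _ (Nat.mul_le_mul (by omega) hδk.le)
      have h2 : 1 ≤ k ^ 3 := Nat.one_le_pow _ _ hk1
      rw [hG]; nlinarith
    have hXm : X + 2 ≤ 20 * m ^ 3 := by
      have h1 : k / m ≤ 16 * m ^ 3 := by
        apply Nat.div_le_of_le_mul; nlinarith
      have h2 : m ≤ m ^ 3 := Nat.le_self_pow (by norm_num) m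
      omega
    have hN : 4 * (δ * (2 * (2 * G ^ X)) + 1) ≤ (13 * k ^ 3) ^ (20 * m ^ 3) := by
      have h1 : G ^ X ≤ (13 * k ^ 3) ^ X := Nat.pow_le_pow_left hGk X
      have h2 : 1 ≤ (13 * k ^ 3) ^ X := Nat.one_le_pow _ _ (by positivity)
      have h3 : k ≤ k ^ 6 := Nat.le_self_pow (by norm_num) k
      calc 4 * (δ * (2 * (2 * G ^ X)) + 1) ≤ 4 * (k * (2 * (2 * (13 * k ^ 3) ^ X)) +
            k * (13 * k ^ 3) ^ X) := by
            gcongr
            nlinarith
        _ = (20 * k) * (13 * k ^ 3) ^ X := by ring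
        _ ≤ (13 * k ^ 3) ^ 2 * (13 * k ^ 3) ^ X := by
            apply Nat.mul_le_mul_right; nlinarith
        _ = (13 * k ^ 3) ^ (X + 2) := by ring
        _ ≤ _ := Nat.pow_le_pow_right (by positivity) hXm
    have hexp : ((13 * k ^ 3 : ℕ) : ℝ) ≤ Real.exp (63 * z) := by
      have h1 : z ≤ Real.exp z := by linarith [Real.add_one_le_exp z]
      have h2 : (13 : ℝ) ≤ Real.exp (3 * z) := by
        have h3 : Real.exp 3 ≤ Real.exp (3 * z) := Real.exp_le_exp.2 (by linarith)
        have h4 : (13 : ℝ) ≤ Real.exp 3 := by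
          have := Real.exp_one_gt_d9
          have e : Real.exp 3 = Real.exp 1 ^ 3 := by rw [← Real.exp_nat_mul]; norm_num
          rw [e]
          calc (13 : ℝ) ≤ 2.7182818283 ^ 3 := by norm_num
            _ ≤ _ := by gcongr
        linarith
      push_cast
      rw [← hzk, ← pow_mul]
      calc 13 * z ^ (20 * 3) ≤ Real.exp (3 * z) * Real.exp z ^ (20 * 3) := by gcongr
        _ = _ := by rw [← Real.exp_nat_mul, ← Real.exp_add]; congr 1; push_cast; ring
    have hN' : (4 * (((δ * (2 * (2 * G ^ X)) : ℕ) : ℝ) + 1)) ≤ Real.exp (1260 * z ^ 16) := by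
      have h1 : (4 * (((δ * (2 * (2 * G ^ X)) : ℕ) : ℝ) + 1)) ≤
          ((13 * k ^ 3 : ℕ) : ℝ) ^ (20 * m ^ 3) := by exact_mod_cast hN
      refine h1.trans ((pow_le_pow_left₀ (by positivity) hexp _).trans ?_)
      rw [← Real.exp_nat_mul]
      apply Real.exp_le_exp.2
      push_cast
      have h2 : (m : ℝ) ^ 3 ≤ (z ^ 5) ^ 3 := by gcongr
      nlinarith
    have hδ0 : (0 : ℝ) < δ := by linarith
    have hδk' : (δ : ℝ) ≤ z ^ 20 := by rw [hzk]; exact_mod_cast hδk.le
    have ht : 74 * z ^ 18 ≤ (δ : ℝ) - 2 * ((k / 4 + 3 : ℕ) : ℝ) := by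
      push_cast at hd2 ⊢
      linarith
    have hfin : - ((δ : ℝ) - 2 * ((k / 4 + 3 : ℕ) : ℝ)) ^ 2 / (4 * δ) + 1260 * z ^ 16 ≤ 0 := by
      rw [neg_div, neg_add_le_iff_le_add, add_zero, le_div_iff₀ (by positivity)]
      have h1 : (74 * z ^ 18) ^ 2 ≤ ((δ : ℝ) - 2 * ((k / 4 + 3 : ℕ) : ℝ)) ^ 2 := by gcongr
      have h2 : 1260 * z ^ 16 * (4 * δ) ≤ 1260 * z ^ 16 * (4 * z ^ 20) := by gcongr
      have h3 : (0 : ℝ) ≤ z ^ 36 := by positivity
      nlinarith
    calc _ ≤ Real.exp (- ((δ : ℝ) - 2 * ((k / 4 + 3 : ℕ) : ℝ)) ^ 2 / (4 * δ)) *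
          Real.exp (1260 * z ^ 16) := by gcongr
      _ = Real.exp (- ((δ : ℝ) - 2 * ((k / 4 + 3 : ℕ) : ℝ)) ^ 2 / (4 * δ) + 1260 * z ^ 16) := by
          rw [Real.exp_add]
      _ ≤ 1 := Real.exp_le_one_iff.2 hfin

theorem asymptotic (k : ℕ) (hk1 : 1 ≤ k) (W : Type) [Fintype W] (G : Digraph W)
    (hirr : ∀ v, ¬ G.Adj v v) (hac : AntiConnected G) (hn : k + 1 ≤ Fintype.card W)
    (hdeg : ∀ v, (k : ℝ) / 2 + 80 * (k : ℝ) ^ (9 / 10 : ℝ) ≤ ({w | G.Adj v w}.ncard : ℝ) ∧
      (k : ℝ) / 2 + 80 * (k : ℝ) ^ (9 / 10 : ℝ) ≤ ({w | G.Adj w v}.ncard : ℝ)) :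
    ∃ p : Fin (k + 1) → W, IsAntiPath G k p := by
  classical
  by_contra hcon
  have hk : ∀ l, P G.Adj l → l.length ≤ k := by
    intro l hl
    by_contra h
    exact hcon (antipath_of_list G k l hl (by omega))
  set δ := ⌈(k : ℝ) / 2 + 80 * (k : ℝ) ^ (9 / 10 : ℝ)⌉₊ with hδdef
  have hδ : ∀ u, δ ≤ (nbr G.Adj u).card := by
    rintro ⟨v, b⟩
    rw [hδdef, Nat.ceil_le]
    cases b
    · refine (hdeg v).2.trans (le_of_eq ?_)
      rw [← Set.ncard_coe_finset]
      congr 2
      ext w; simp [mem_nbr, adj]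
    · refine (hdeg v).1.trans (le_of_eq ?_)
      rw [← Set.ncard_coe_finset]
      congr 2
      ext w; simp [mem_nbr, adj]
  obtain ⟨v0⟩ : Nonempty W := Fintype.card_pos_iff.1 (by omega)
  have hδk := greedy hirr k δ hk hδ v0
  obtain ⟨η, d, h1, h2, h3, h4, h5⟩ := numerics k δ hk1 hδk (Nat.le_ceil _)
  refine core hirr k δ η d h1 h2 h3 h4 h5 hδ hn ?_ hk
  intro u v huv
  obtain ⟨m, p, hp, rfl, rfl⟩ := hac u v huv
  exact rtg_of_antipath G m p hp

end Pool.Agent.Lib.MP_04ab3e_co
end
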