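import Mathlib

-- part Pool.Agent.Lib.MP_04ab3e_co.Basic
section

/-! Role vertices and conflict-free paths for antidirected paths in digraphs. -/

namespace Pool.Agent.Lib.MP_04ab3e_co

open Finset

variable {V : Type}

/-- Adjacency in the bipartite double cover: `(x, true)` is `x` used as a source. -/
def adj (D : V → V → Prop) (a b : V × Bool) : Prop :=
  (a.2 = true ∧ b.2 = false ∧ D a.1 b.1) ∨ (a.2 = false ∧ b.2 = true ∧ D b.1 a.1)

lemma adj_symm {D : V → V → Prop} {a b : V × Bool} (h : adj D a b) : adj D b a := by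
  unfold adj at *; tauto

lemma adj_role {D : V → V → Prop} {a b : V × Bool} (h : adj D a b) : b.2 = !a.2 := by
  rcases h with ⟨h1, h2, _⟩ | ⟨h1, h2, _⟩ <;> simp [h1, h2]

lemma adj_ne {D : V → V → Prop} (hirr : ∀ v, ¬ D v v) {a b : V × Bool} (h : adj D a b) :
    a.1 ≠ b.1 := by
  intro he
  rcases h with ⟨_, _, h3⟩ | ⟨_, _, h3⟩
  · rw [he] at h3; exact hirr _ h3
  · rw [he] at h3; exact hirr _ h3

/-- A conflict-free path in the double cover. -/
def P (D : V → V → Prop) (l : List (V × Bool)) : Prop :=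
  l.IsChain (adj D) ∧ (l.map Prod.fst).Nodup

variable [DecidableEq V]

/-- Vertex set of a path. -/
def vs (l : List (V × Bool)) : Finset V := (l.map Prod.fst).toFinset

lemma mem_vs {l : List (V × Bool)} {v : V} : v ∈ vs l ↔ ∃ a ∈ l, a.1 = v := by
  simp [vs]

lemma fst_mem_vs {l : List (V × Bool)} {a : V × Bool} (h : a ∈ l) : a.1 ∈ vs l :=
  mem_vs.2 ⟨a, h, rfl⟩

@[simp] lemma vs_nil : vs ([] : List (V × Bool)) = ∅ := by simp [vs]

@[simp] lemma vs_cons (a : V × Bool) (l : List (V × Bool)) : vs (a :: l) = insert a.1 (vs l) := by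
  simp [vs]

@[simp] lemma vs_append (l₁ l₂ : List (V × Bool)) : vs (l₁ ++ l₂) = vs l₁ ∪ vs l₂ := by
  simp [vs]

@[simp] lemma vs_reverse (l : List (V × Bool)) : vs l.reverse = vs l := by
  ext v; simp [mem_vs]

lemma card_vs_le (l : List (V × Bool)) : (vs l).card ≤ l.length := by
  unfold vs
  exact (List.toFinset_card_le _).trans (by simp)

lemma P.card_vs {D : V → V → Prop} {l : List (V × Bool)} (h : P D l) :
    (vs l).card = l.length := by
  unfold vs
  rw [List.toFinset_card_of_nodup h.2]; simp

omit [DecidableEq V] in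
lemma P.nil {D : V → V → Prop} : P D [] := ⟨List.IsChain.nil, by simp⟩

omit [DecidableEq V] in
lemma P.single {D : V → V → Prop} (a : V × Bool) : P D [a] := ⟨List.IsChain.singleton a, by simp⟩

omit [DecidableEq V] in
lemma P.reverse {D : V → V → Prop} {l : List (V × Bool)} (h : P D l) : P D l.reverse := by
  refine ⟨?_, ?_⟩
  · rw [List.isChain_reverse]
    exact h.1.imp (fun _ _ hab => adj_symm hab)
  · rw [List.map_reverse, List.nodup_reverse]; exact h.2

lemma P.append {D : V → V → Prop} {l₁ l₂ : List (V × Bool)} (h₁ : P D l₁) (h₂ : P D l₂)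
    (hd : Disjoint (vs l₁) (vs l₂))
    (hl : ∀ x ∈ l₁.getLast?, ∀ y ∈ l₂.head?, adj D x y) : P D (l₁ ++ l₂) := by
  refine ⟨h₁.1.append h₂.1 hl, ?_⟩
  rw [List.map_append, List.nodup_append]
  refine ⟨h₁.2, h₂.2, ?_⟩
  intro a ha b hb hab
  subst hab
  exact Finset.disjoint_left.1 hd (List.mem_toFinset.2 ha) (List.mem_toFinset.2 hb)

lemma P.cons {D : V → V → Prop} {a : V × Bool} {l : List (V × Bool)} (h : P D l)
    (ha : a.1 ∉ vs l) (hl : ∀ y ∈ l.head?, adj D a y) : P D (a :: l) := by
  refine ⟨h.1.cons hl, ?_⟩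
  rw [List.map_cons, List.nodup_cons]
  exact ⟨fun hh => ha (List.mem_toFinset.2 hh), h.2⟩

omit [DecidableEq V] in
lemma P.left {D : V → V → Prop} {l₁ l₂ : List (V × Bool)} (h : P D (l₁ ++ l₂)) : P D l₁ := by
  refine ⟨h.1.left_of_append, ?_⟩
  have := h.2
  rw [List.map_append] at this
  exact this.of_append_left

omit [DecidableEq V] in
lemma P.right {D : V → V → Prop} {l₁ l₂ : List (V × Bool)} (h : P D (l₁ ++ l₂)) : P D l₂ := by
  refine ⟨h.1.right_of_append, ?_⟩
  have := h.2
  rw [List.map_append] at this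
  exact this.of_append_right

lemma P.disj {D : V → V → Prop} {l₁ l₂ : List (V × Bool)} (h : P D (l₁ ++ l₂)) :
    Disjoint (vs l₁) (vs l₂) := by
  have := h.2
  rw [List.map_append, List.nodup_append] at this
  rw [Finset.disjoint_left]
  intro v h1 h2
  exact this.2.2 v (List.mem_toFinset.1 h1) v (List.mem_toFinset.1 h2) rfl

omit [DecidableEq V] in
lemma P.tail {D : V → V → Prop} {a : V × Bool} {l : List (V × Bool)} (h : P D (a :: l)) :
    P D l := P.right (l₁ := [a]) h

lemma P.notMem {D : V → V → Prop} {a : V × Bool} {l : List (V × Bool)} (h : P D (a :: l)) :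
    a.1 ∉ vs l := by
  have := h.2
  rw [List.map_cons, List.nodup_cons] at this
  exact fun hh => this.1 (List.mem_toFinset.1 hh)

/-- Joining two disjoint paths head to head through one new vertex. -/
lemma P.link {D : V → V → Prop} {u u' w : V × Bool} {l l' : List (V × Bool)}
    (h : P D (u :: l)) (h' : P D (u' :: l')) (hd : Disjoint (vs (u :: l)) (vs (u' :: l')))
    (hw : w.1 ∉ vs (u :: l)) (hw' : w.1 ∉ vs (u' :: l')) (a1 : adj D u w) (a2 : adj D u' w) :
    P D ((u :: l).reverse ++ w :: u' :: l') := by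
  refine P.append h.reverse (P.cons h' hw' ?_) ?_ ?_
  · intro y hy
    simp only [List.head?_cons, Option.mem_def, Option.some.injEq] at hy
    subst hy; exact adj_symm a2
  · rw [vs_reverse, vs_cons w, Finset.disjoint_insert_right]
    exact ⟨hw, hd⟩
  · intro x hx y hy
    simp only [List.reverse_cons, List.getLast?_append, List.getLast?_singleton, Option.some_or,
      Option.mem_def, Option.some.injEq, List.head?_cons] at hx hy
    subst hx; subst hy; exact a1

omit [DecidableEq V] in
lemma exists_max {α : Type} (Q : α → Prop) (f : α → ℕ) (B : ℕ) (h0 : ∃ a, Q a)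
    (hB : ∀ a, Q a → f a ≤ B) : ∃ a, Q a ∧ ∀ b, Q b → f b ≤ f a := by
  classical
  have hex : ∃ n, ∃ a, Q a ∧ B - f a = n := by
    obtain ⟨a, ha⟩ := h0
    exact ⟨_, a, ha, rfl⟩
  obtain ⟨a, ha, hfa⟩ := Nat.find_spec hex
  refine ⟨a, ha, fun b hb => ?_⟩
  have := Nat.find_min' hex ⟨b, hb, rfl⟩
  have h1 := hB a ha
  have h2 := hB b hb
  omega

omit [DecidableEq V] in
/-- Roles alternate along a chain. -/
lemma count_role {D : V → V → Prop} (l : List (V × Bool)) :
    ∀ a : V × Bool, (a :: l).IsChain (adj D) →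
      ((a :: l).filter (fun x => x.2 = !a.2)).length ≤ ((a :: l).filter (fun x => x.2 = a.2)).length ∧
      ((a :: l).filter (fun x => x.2 = a.2)).length ≤
        ((a :: l).filter (fun x => x.2 = !a.2)).length + 1 := by
  induction l with
  | nil => intro a _; simp
  | cons b l ih =>
    intro a h
    rw [List.isChain_cons_cons] at h
    have hb := adj_role h.1
    have := ih b h.2
    rw [hb] at this
    simp only [Bool.not_not] at this
    rw [List.filter_cons (x := a), List.filter_cons (x := a)]
    simp only [Bool.eq_not_self, decide_false, decide_true, Bool.false_eq_true, if_false, if_true,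
      List.length_cons]
    omega

omit [DecidableEq V] in
lemma two_mul_filter_le {D : V → V → Prop} (l : List (V × Bool)) (a : V × Bool)
    (h : (a :: l).IsChain (adj D)) :
    2 * ((a :: l).filter (fun x => x.2 = !a.2)).length ≤ (a :: l).length := by
  have h1 := (count_role l a h).1
  have h2 : ((a :: l).filter (fun x => x.2 = a.2)).length +
      ((a :: l).filter (fun x => x.2 = !a.2)).length = (a :: l).length := by
    have := List.length_eq_length_filter_add (l := a :: l) (fun x => decide (x.2 = a.2))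
    rw [this]
    congr 2
    apply List.filter_congr
    intro x _
    cases x.2 <;> cases a.2 <;> simp
  omega

variable [Fintype V]

open Classical in
/-- Neighbours of a role vertex, as vertices of the digraph. -/
noncomputable def nbr (D : V → V → Prop) (u : V × Bool) : Finset V :=
  univ.filter (fun w => adj D u (w, !u.2))

lemma mem_nbr {D : V → V → Prop} {u : V × Bool} {w : V} : w ∈ nbr D u ↔ adj D u (w, !u.2) := by
  simp [nbr]

lemma mem_nbr_of_adj {D : V → V → Prop} {u w : V × Bool} (h : adj D u w) : w.1 ∈ nbr D u := by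
  rw [mem_nbr, ← adj_role h]; exact h

end Pool.Agent.Lib.MP_04ab3e_co
end

-- part Pool.Agent.Lib.MP_04ab3e_co.Bip
section

/-! Long paths in conflict-free bipartite pieces. -/

set_option linter.unusedSectionVars false

namespace Pool.Agent.Lib.MP_04ab3e_co

open Finset

variable {V : Type} [DecidableEq V] [Fintype V] {D : V → V → Prop}

open Classical in
/-- Number of neighbours of `u` inside `A`. -/
noncomputable def degA (D : V → V → Prop) (A : V × Bool → Prop) (u : V × Bool) : ℕ :=
  ((nbr D u).filter (fun w => A (w, !u.2))).card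

lemma mem_of_cf {A : V × Bool → Prop} (hcf : ∀ a b, A a → A b → a.1 = b.1 → a = b)
    {l : List (V × Bool)} (hl : ∀ x ∈ l, A x) {w : V × Bool} (hw : A w) (h : w.1 ∈ vs l) :
    w ∈ l := by
  obtain ⟨a, ha, e⟩ := mem_vs.1 h
  rw [← hcf a w (hl a ha) hw e]; exact ha

lemma degA_le_filter {A : V × Bool → Prop} {u : V × Bool} {l : List (V × Bool)}
    (h : ∀ w, A w → adj D u w → w ∈ l) :
    degA D A u ≤ (l.filter (fun x => x.2 = !u.2)).length := by
  classical
  refine le_trans (Finset.card_le_card ?_) (card_vs_le _)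
  intro w hw
  rw [Finset.mem_filter] at hw
  refine mem_vs.2 ⟨(w, !u.2), ?_, rfl⟩
  rw [List.mem_filter]
  exact ⟨h _ hw.2 (mem_nbr.1 hw.1), by simp⟩

lemma rooted_long {A : V × Bool → Prop} (hcf : ∀ a b, A a → A b → a.1 = b.1 → a = b)
    (k d : ℕ) (hk : ∀ l, P D l → l.length ≤ k) (hd : ∀ u, A u → d ≤ degA D A u)
    (u : V × Bool) (hu : A u) :
    ∃ l, P D l ∧ (∀ x ∈ l, A x) ∧ l.getLast? = some u ∧ 2 * d ≤ l.length := by
  obtain ⟨l, ⟨hP, hA, hlast⟩, hmax⟩ := exists_max
    (fun l : List (V × Bool) => P D l ∧ (∀ x ∈ l, A x) ∧ l.getLast? = some u) List.length k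
    ⟨[u], P.single u, by simpa using hu, by simp⟩ (fun l hl => hk l hl.1)
  refine ⟨l, hP, hA, hlast, ?_⟩
  obtain ⟨a, l', rfl⟩ : ∃ a l', l = a :: l' := by
    apply List.exists_cons_of_ne_nil
    rintro rfl; simp at hlast
  have hcl : ∀ w, A w → adj D a w → w ∈ a :: l' := by
    intro w hw haw
    apply mem_of_cf hcf hA hw
    by_contra hcon
    have := hmax (w :: a :: l') ⟨P.cons hP hcon (by simpa using adj_symm haw), ?_, ?_⟩
    · simp at this
    · intro x hx
      rcases List.mem_cons.1 hx with rfl | hx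
      · exact hw
      · exact hA x hx
    · rw [List.getLast?_cons_cons]; exact hlast
  have h1 := degA_le_filter hcl
  have h2 := two_mul_filter_le l' a hP.1
  have h3 := hd a (hA a List.mem_cons_self)
  omega

/-- A closed path. -/
def Cyc (D : V → V → Prop) (c : List (V × Bool)) : Prop :=
  P D c ∧ ∀ x ∈ c.getLast?, ∀ y ∈ c.head?, adj D x y

lemma Cyc.rot {l₁ l₂ : List (V × Bool)} (h : Cyc D (l₁ ++ l₂)) : Cyc D (l₂ ++ l₁) := by
  rcases eq_or_ne l₁ [] with rfl | h1
  · simpa using h
  rcases eq_or_ne l₂ [] with rfl | h2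
  · simpa using h
  refine ⟨P.append h.1.right h.1.left h.1.disj.symm ?_, ?_⟩
  · intro x hx y hy
    apply h.2
    · rwa [List.getLast?_append_of_ne_nil _ h2]
    · rwa [List.head?_append_of_ne_nil _ h1]
  · intro x hx y hy
    rw [List.getLast?_append_of_ne_nil _ h1] at hx
    rw [List.head?_append_of_ne_nil _ h2] at hy
    exact (List.isChain_append.1 h.1.1).2.2 x hx y hy

lemma role_idx {l : List (V × Bool)} (h : l.IsChain (adj D)) (x : V × Bool) (hx : l[0]? = some x) :
    ∀ i z, l[i]? = some z → z.2 = if i % 2 = 0 then x.2 else !x.2 := by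
  intro i
  induction i with
  | zero => intro z hz; rw [hx] at hz; cases hz; simp
  | succ i ih =>
    intro z hz
    obtain ⟨hi, rfl⟩ := List.getElem?_eq_some_iff.1 hz
    have h1 := ih l[i] (List.getElem?_eq_getElem (by omega))
    have h2 := adj_role (List.isChain_iff_getElem.1 h i hi)
    rw [h2, h1]
    by_cases e : i % 2 = 0
    · have : (i + 1) % 2 ≠ 0 := by omega
      simp [e, this]
    · have : (i + 1) % 2 = 0 := by omega
      simp [e, this]

open Classical in
/-- Positions of the neighbours of `u` on a list. -/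
noncomputable def idx (D : V → V → Prop) (l : List (V × Bool)) (u : V × Bool) : Finset ℕ :=
  (range l.length).filter (fun i => ∃ z, l[i]? = some z ∧ adj D u z)

lemma mem_idx {l : List (V × Bool)} {u : V × Bool} {i : ℕ} :
    i ∈ idx D l u ↔ i < l.length ∧ ∃ z, l[i]? = some z ∧ adj D u z := by
  simp [idx]

lemma degA_le_idx {A : V × Bool → Prop} {u : V × Bool} {l : List (V × Bool)}
    (h : ∀ w, A w → adj D u w → w ∈ l) : degA D A u ≤ (idx D l u).card := by
  classical
  refine le_trans (Finset.card_le_card ?_)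
    (Finset.card_image_le (s := idx D l u) (f := fun i => (l[i]?.getD u).1))
  intro w hw
  rw [Finset.mem_filter] at hw
  have h1 := h _ hw.2 (mem_nbr.1 hw.1)
  obtain ⟨i, hi⟩ := List.mem_iff_getElem?.1 h1
  refine Finset.mem_image.2 ⟨i, mem_idx.2 ⟨?_, _, hi, mem_nbr.1 hw.1⟩, by simp [hi]⟩
  exact (List.getElem?_eq_some_iff.1 hi).1

lemma idx_parity {l : List (V × Bool)} (h : l.IsChain (adj D)) (x : V × Bool)
    (hx : l[0]? = some x) {u : V × Bool} {i : ℕ} (hi : i ∈ idx D l u) :
    i < l.length ∧ (u.2 = x.2 → i % 2 = 1) ∧ (u.2 = !x.2 → i % 2 = 0) := by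
  obtain ⟨h1, z, hz, huz⟩ := mem_idx.1 hi
  have h2 := role_idx h x hx i z hz
  have h3 := adj_role huz
  refine ⟨h1, ?_, ?_⟩
  · intro e
    by_contra hc
    have : i % 2 = 0 := by omega
    rw [h3, e] at h2; simp [this] at h2
  · intro e
    by_contra hc
    rw [h3, e] at h2; simp [hc] at h2

lemma ph (I J : Finset ℕ) (r d c : ℕ) (hI : ∀ i ∈ I, i % 2 = 1 ∧ i < 2 * r)
    (hJ : ∀ j ∈ J, (j + c) % 2 = 1 ∧ j + c < 2 * r) (h1 : d ≤ I.card) (h2 : d ≤ J.card)
    (hr : r < 2 * d) : ∃ j ∈ J, j + c ∈ I := by
  by_contra hcon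
  push Not at hcon
  have hd : Disjoint I (J.image (· + c)) := by
    rw [Finset.disjoint_right]
    intro a ha
    obtain ⟨j, hj, rfl⟩ := Finset.mem_image.1 ha
    exact hcon j hj
  have hc : (J.image (· + c)).card = J.card :=
    Finset.card_image_of_injective _ (add_left_injective c)
  have hsub : I ∪ J.image (· + c) ⊆ (range r).image (fun t => 2 * t + 1) := by
    intro a ha
    have : a % 2 = 1 ∧ a < 2 * r := by
      rcases Finset.mem_union.1 ha with h | h
      · exact hI a h
      · obtain ⟨j, hj, rfl⟩ := Finset.mem_image.1 h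
        exact hJ j hj
    exact Finset.mem_image.2 ⟨a / 2, Finset.mem_range.2 (by omega), by omega⟩
  have h3 := Finset.card_le_card hsub
  rw [Finset.card_union_of_disjoint hd, hc] at h3
  have h4 : ((range r).image (fun t => 2 * t + 1)).card ≤ r :=
    Finset.card_image_le.trans (by simp)
  omega

/-- Closing a path into a cycle with two crossing chords. -/
lemma cyc_of_chords {l : List (V × Bool)} (hP : P D l) (x y a b : V × Bool) (j c : ℕ)
    (hx : l[0]? = some x) (hy : l.getLast? = some y) (ha : l[j]? = some a)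
    (hb : l[j + 1 + c]? = some b) (hya : adj D y a) (hxb : adj D x b) :
    Cyc D (l.take (j + 1) ++ (l.drop (j + 1 + c)).reverse) := by
  have hlen : j + 1 + c < l.length := (List.getElem?_eq_some_iff.1 hb).1
  have e1 : l = l.take (j + 1) ++ ((l.drop (j + 1)).take c ++ l.drop (j + 1 + c)) := by
    have : l.drop (j + 1 + c) = (l.drop (j + 1)).drop c := by rw [List.drop_drop]
    rw [this, List.take_append_drop, List.take_append_drop]
  have hP' := hP
  rw [e1] at hP'
  have hd := hP'.disj
  rw [vs_append, Finset.disjoint_union_right] at hd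
  have hne : (l.drop (j + 1 + c)).reverse ≠ [] := by
    simp; omega
  have hne' : l.take (j + 1) ≠ [] := by
    simp; rintro rfl; simp at hlen
  refine ⟨P.append hP'.left hP'.right.right.reverse (by rw [vs_reverse]; exact hd.2) ?_, ?_⟩
  · intro p hp q hq
    rw [List.getLast?_take] at hp
    rw [List.head?_reverse, List.getLast?_drop, if_neg (by omega), hy] at hq
    simp only [Nat.add_eq_zero_iff, one_ne_zero, and_false, if_false, Nat.add_sub_cancel, ha,
      Option.some_or, Option.mem_def, Option.some.injEq] at hp hq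
    subst hp; subst hq; exact adj_symm hya
  · intro p hp q hq
    rw [List.getLast?_append_of_ne_nil _ hne, List.getLast?_reverse, List.head?_drop, hb] at hp
    rw [List.head?_append_of_ne_nil _ hne', List.head?_take, if_neg (by omega),
      List.head?_eq_getElem?, hx] at hq
    simp only [Option.mem_def, Option.some.injEq] at hp hq
    subst hp; subst hq; exact adj_symm hxb

/-- A vertex outside a cycle and adjacent to it starts a path through the whole cycle. -/
lemma cyc_attach {c : List (V × Bool)} (hc : Cyc D c) {z s : V × Bool} (hs : s ∈ c)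
    (hz : z.1 ∉ vs c) (hzs : adj D z s) :
    ∃ c', P D (z :: c') ∧ c'.length = c.length ∧ (∀ x, x ∈ c' ↔ x ∈ c) := by
  obtain ⟨l1, l2, rfl⟩ := List.append_of_mem hs
  have := hc.rot
  refine ⟨s :: l2 ++ l1, P.cons this.1 ?_ (by simpa using hzs), by simp; omega, ?_⟩
  · intro h; apply hz
    rw [vs_append] at h ⊢
    rwa [Finset.union_comm]
  · intro x; simp only [List.mem_append, List.mem_cons]; tauto

theorem connected_case (φ : V → Bool) (k d : ℕ) (hk : ∀ l, P D l → l.length ≤ k)
    (hd : ∀ u, u.2 = φ u.1 → d ≤ degA D (fun x => x.2 = φ x.1) u)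
    (hconn : ∀ a b : V × Bool, a.2 = φ a.1 → b.2 = φ b.1 →
      Relation.ReflTransGen (fun x y => adj D x y ∧ y.2 = φ y.1) a b)
    (hbal : ∀ r ρ, 2 * r + 2 ≤ Fintype.card V → r + 1 ≤ (univ.filter (fun v => φ v = ρ)).card)
    (hn : k + 1 ≤ Fintype.card V) (hkd : k + 2 ≤ 4 * d) : False := by
  classical
  set A : V × Bool → Prop := fun x => x.2 = φ x.1 with hAdef
  have hcf : ∀ a b, A a → A b → a.1 = b.1 → a = b := by
    intro a b ha hb e
    exact Prod.ext e (by rw [ha, hb, e])
  obtain ⟨v0⟩ : Nonempty V := Fintype.card_pos_iff.1 (by omega)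
  obtain ⟨l, ⟨hP, hA⟩, hmax⟩ := exists_max
    (fun l : List (V × Bool) => P D l ∧ (∀ x ∈ l, A x)) List.length k
    ⟨[], P.nil, by simp⟩ (fun l hl => hk l hl.1)
  have hm1 : 1 ≤ l.length := hmax [(v0, φ v0)] ⟨P.single _, by simp [hAdef]⟩
  have hmk := hk l hP
  -- heads of longest paths are closed
  have hcl : ∀ a l', P D (a :: l') → (∀ x ∈ a :: l', A x) → (a :: l').length = l.length →
      ∀ w, A w → adj D a w → w ∈ l' := by
    intro a l' h1 h2 h3 w hw haw
    have : w ∈ a :: l' := by
      apply mem_of_cf hcf h2 hw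
      by_contra hcon
      have := hmax (w :: a :: l') ⟨P.cons h1 hcon (by simpa using adj_symm haw), ?_⟩
      · rw [← h3] at this; simp at this
      · intro x hx
        rcases List.mem_cons.1 hx with rfl | hx
        · exact hw
        · exact h2 x hx
    rcases List.mem_cons.1 this with e | h
    · have := adj_role haw
      rw [e] at this; simp at this
    · exact h
  obtain ⟨x, l1, hl1⟩ : ∃ a l', l = a :: l' := by
    apply List.exists_cons_of_ne_nil
    rintro rfl; simp at hm1
  obtain ⟨y, l2, hl2⟩ : ∃ a l', l.reverse = a :: l' := by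
    apply List.exists_cons_of_ne_nil
    rw [hl1]; simp
  have hx : l[0]? = some x := by rw [hl1]; simp
  have hy : l.getLast? = some y := by rw [← List.head?_reverse, hl2]; simp
  have hxA : A x := hA x (by rw [hl1]; simp)
  have hyl : y ∈ l := List.mem_of_getLast? hy
  have hyA : A y := hA y hyl
  have hxc : ∀ w, A w → adj D x w → w ∈ l := by
    intro w hw h
    rw [hl1]
    exact List.mem_cons_of_mem _ (hcl x l1 (hl1 ▸ hP) (hl1 ▸ hA) (by rw [hl1]) w hw h)
  have hyc : ∀ w, A w → adj D y w → w ∈ l := by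
    intro w hw h
    rw [← List.mem_reverse, hl2]
    refine List.mem_cons_of_mem _ (hcl y l2 (hl2 ▸ hP.reverse) ?_ (by rw [← hl2]; simp) w hw h)
    rw [← hl2]; intro z hz; exact hA z (List.mem_reverse.1 hz)
  have dx := (hd x hxA).trans (degA_le_idx hxc)
  have dy := (hd y hyA).trans (degA_le_idx hyc)
  have hyrole := role_idx hP.1 x hx (l.length - 1) y (by rw [← List.getLast?_eq_getElem?, hy])
  rcases Nat.even_or_odd' l.length with ⟨r, hr | hr⟩
  · -- even case
    have hyr : y.2 = !x.2 := by rw [hyrole, if_neg (by omega)]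
    obtain ⟨j, hj, hj'⟩ := ph (idx D l x) (idx D l y) r d 1
      (fun i hi => by have := idx_parity hP.1 x hx hi; exact ⟨this.2.1 rfl, by omega⟩)
      (fun i hi => by have := idx_parity hP.1 x hx hi; have h2 := this.2.2 hyr; omega)
      dx dy (by omega)
    obtain ⟨_, a, ha, hya⟩ := mem_idx.1 hj
    obtain ⟨hjl, b, hb, hxb⟩ := mem_idx.1 hj'
    have hc := cyc_of_chords hP x y a b j 0 hx hy ha hb hya hxb
    set c := l.take (j + 1) ++ (l.drop (j + 1 + 0)).reverse with hcdef
    have hcm : ∀ z, z ∈ c ↔ z ∈ l := by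
      intro z
      rw [hcdef, List.mem_append, List.mem_reverse, ← List.mem_append, Nat.add_zero,
        List.take_append_drop]
    have hclen : c.length = l.length := by simp [hcdef]; omega
    have hall : ∀ z, Relation.ReflTransGen (fun x y => adj D x y ∧ y.2 = φ y.1) x z → z ∈ c := by
      intro z hz
      induction hz with
      | refl => rw [hcm, hl1]; simp
      | @tail s z _ h2 ih =>
        apply mem_of_cf hcf (fun t ht => hA t ((hcm t).1 ht)) h2.2
        by_contra hcon
        obtain ⟨c', h3, h4, h5⟩ := cyc_attach hc ih hcon (adj_symm h2.1)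
        have := hmax (z :: c') ⟨h3, ?_⟩
        · simp at this; omega
        · intro t ht
          rcases List.mem_cons.1 ht with rfl | ht
          · exact h2.2
          · exact hA t ((hcm t).1 ((h5 t).1 ht))
    have hsub : (univ : Finset V) ⊆ vs c := by
      intro v _
      exact fst_mem_vs (a := (v, φ v)) (hall _ (hconn x (v, φ v) hxA rfl))
    have h1 := Finset.card_le_card hsub
    have h2 := card_vs_le c
    rw [Finset.card_univ] at h1
    omega
  · -- odd case
    have hyr : y.2 = x.2 := by rw [hyrole, if_pos (by omega)]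
    obtain ⟨j, hj, hj'⟩ := ph (idx D l x) (idx D l y) (r + 1) d 2
      (fun i hi => by have := idx_parity hP.1 x hx hi; exact ⟨this.2.1 rfl, by omega⟩)
      (fun i hi => by have := idx_parity hP.1 x hx hi; have h2 := this.2.1 hyr; omega)
      dx dy (by omega)
    obtain ⟨_, a, ha, hya⟩ := mem_idx.1 hj
    obtain ⟨hjl, b, hb, hxb⟩ := mem_idx.1 hj'
    have hjodd := (idx_parity hP.1 x hx hj).2.1 hyr
    have hc := cyc_of_chords hP x y a b j 1 hx hy ha hb hya hxb
    set c := l.take (j + 1) ++ (l.drop (j + 1 + 1)).reverse with hcdef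
    have hcl' : ∀ z ∈ c, z ∈ l := by
      intro z hz
      rw [hcdef, List.mem_append, List.mem_reverse] at hz
      rcases hz with h | h
      · exact List.mem_of_mem_take h
      · exact List.mem_of_mem_drop h
    have hcA : ∀ z ∈ c, A z := fun z hz => hA z (hcl' z hz)
    have hclen : c.length = 2 * r := by simp [hcdef]; omega
    have hc0 : (c)[0]? = some x := by
      rw [hcdef, List.getElem?_append_left (by simp; omega), List.getElem?_take_of_lt (by omega), hx]
    have hxc' : x ∈ c := List.mem_of_getElem? hc0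
    -- attached vertices are closed
    have hatt : ∀ z, A z → z.1 ∉ vs c → ∀ s ∈ c, adj D z s → ∀ w, A w → adj D z w → w ∈ c := by
      intro z hz hzc s hs hzs w hw hzw
      obtain ⟨c', h3, h4, h5⟩ := cyc_attach hc hs hzc hzs
      refine (h5 w).1 (hcl z c' h3 ?_ (by simp; omega) w hw hzw)
      intro t ht
      rcases List.mem_cons.1 ht with rfl | ht
      · exact hz
      · exact hcA t ((h5 t).1 ht)
    have hall : ∀ z, Relation.ReflTransGen (fun x y => adj D x y ∧ y.2 = φ y.1) x z →
        A z ∧ (z ∈ c ∨ ∃ s ∈ c, adj D z s) := by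
      intro z hz
      induction hz with
      | refl => exact ⟨hxA, Or.inl hxc'⟩
      | @tail s z _ h2 ih =>
        refine ⟨h2.2, ?_⟩
        by_cases hs : s ∈ c
        · exact Or.inr ⟨s, hs, adj_symm h2.1⟩
        · obtain ⟨s', hs', h3⟩ := ih.2.resolve_left hs
          exact Or.inl (hatt s ih.1 (fun h => hs (mem_of_cf hcf hcA ih.1 h)) s' hs' h3 z h2.2 h2.1)
    have hclosed : ∀ z, A z → z.1 ∉ vs c → d ≤ (idx D c z).card := by
      intro z hz hzc
      obtain ⟨s, hs, h3⟩ := (hall z (hconn x z hxA hz)).2.resolve_left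
        (fun h => hzc (fst_mem_vs h))
      exact (hd z hz).trans (degA_le_idx (hatt z hz hzc s hs h3))
    -- an outside vertex of each role
    obtain ⟨c1, hc1⟩ : ∃ c1, c = x :: c1 := by
      obtain ⟨a', c1, e⟩ := List.exists_cons_of_ne_nil (List.ne_nil_of_mem hxc')
      rw [e] at hc0; simp at hc0
      exact ⟨c1, by rw [e, hc0]⟩
    have hout : ∀ ρ : Bool, (c.filter (fun z => z.2 = ρ)).length ≤ r →
        ∃ v, φ v = ρ ∧ v ∉ vs c := by
      intro ρ h
      have h1 := hbal r ρ (by omega)
      have h2 : (vs (c.filter (fun z => z.2 = ρ))).card < (univ.filter (fun v => φ v = ρ)).card := by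
        have := card_vs_le (c.filter (fun z => z.2 = ρ)); omega
      obtain ⟨v, hv, hv'⟩ := Finset.exists_mem_notMem_of_card_lt_card h2
      have hv1 := (Finset.mem_filter.1 hv).2
      refine ⟨v, hv1, fun hvc => hv' ?_⟩
      have := mem_of_cf hcf hcA (w := (v, φ v)) rfl hvc
      exact mem_vs.2 ⟨(v, φ v), List.mem_filter.2 ⟨this, by simp [hv1]⟩, rfl⟩
    have hcnt := count_role c1 x (hc1 ▸ hc.1.1)
    have hcnt2 := two_mul_filter_le c1 x (hc1 ▸ hc.1.1)
    have hcnt3 : ((x :: c1).filter (fun z => z.2 = x.2)).length +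
        ((x :: c1).filter (fun z => z.2 = !x.2)).length = (x :: c1).length := by
      have := List.length_eq_length_filter_add (l := x :: c1) (fun z => decide (z.2 = x.2))
      rw [this]
      congr 2
      apply List.filter_congr
      intro z _
      cases z.2 <;> cases x.2 <;> simp
    rw [← hc1] at hcnt hcnt2 hcnt3
    obtain ⟨t, ht1, ht2⟩ := hout (!x.2) (by omega)
    obtain ⟨w, hw1, hw2⟩ := hout x.2 (by omega)
    have dt := hclosed (t, φ t) rfl ht2
    have dw := hclosed (w, φ w) rfl hw2
    obtain ⟨i, hi, hi'⟩ := ph (idx D c (w, φ w)) (idx D c (t, φ t)) r d 1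
      (fun i hi => by have := idx_parity hc.1.1 x hc0 hi; exact ⟨this.2.1 hw1, by omega⟩)
      (fun i hi => by have := idx_parity hc.1.1 x hc0 hi; have h2 := this.2.2 ht1; omega)
      dw dt (by omega)
    obtain ⟨_, a', ha', hta⟩ := mem_idx.1 hi
    obtain ⟨hil, b', hb', hwb⟩ := mem_idx.1 hi'
    have hc' : Cyc D (c.take (i + 1) ++ c.drop (i + 1)) := by rw [List.take_append_drop]; exact hc
    have hc'' := hc'.rot
    have hvs : vs (c.drop (i + 1) ++ c.take (i + 1)) = vs c := by
      rw [vs_append, Finset.union_comm, ← vs_append, List.take_append_drop]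
    have hne1 : c.drop (i + 1) ≠ [] := by simp; omega
    have hne2 : c.take (i + 1) ≠ [] := by rw [hc1]; simp
    have htw : t ≠ w := by
      intro e; rw [e, hw1] at ht1; simp at ht1
    have hPP : P D ((w, φ w) :: ((c.drop (i + 1) ++ c.take (i + 1)) ++ [(t, φ t)])) := by
      refine P.cons (P.append hc''.1 (P.single _) (by rw [hvs]; simpa using ht2) ?_) ?_ ?_
      · intro p hp q hq
        rw [List.getLast?_append_of_ne_nil _ hne2, List.getLast?_take] at hp
        simp only [Nat.add_eq_zero_iff, one_ne_zero, and_false, if_false, Nat.add_sub_cancel, ha',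
          Option.some_or, Option.mem_def, Option.some.injEq, List.head?_cons] at hp hq
        subst hp; subst hq; exact adj_symm hta
      · rw [vs_append, hvs]
        simp only [vs_cons, vs_nil, Finset.mem_union, Finset.mem_insert, Finset.notMem_empty,
          or_false, not_or]
        exact ⟨hw2, Ne.symm htw⟩
      · intro q hq
        rw [List.append_assoc, List.head?_append_of_ne_nil _ hne1, List.head?_drop, hb'] at hq
        cases hq; exact hwb
    have := hmax _ ⟨hPP, ?_⟩
    · simp at this; omega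
    · intro z hz
      simp only [List.mem_cons, List.mem_append, List.not_mem_nil, or_false] at hz
      rcases hz with rfl | (h | h) | rfl
      · rfl
      · exact hcA z (List.mem_of_mem_drop h)
      · exact hcA z (List.mem_of_mem_take h)
      · rfl

end Pool.Agent.Lib.MP_04ab3e_co
end

-- part Pool.Agent.Lib.MP_04ab3e_co.LLL
section

/-! The symmetric local lemma in counting form, and a tail bound for signed sums. -/

namespace Pool.Agent.Lib.MP_04ab3e_co

open Finset

open Classical in
/-- Number of points satisfying a predicate. -/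
noncomputable def cnt {Ω : Type} [Fintype Ω] (Q : Ω → Prop) : ℝ := ((univ.filter Q).card : ℝ)

lemma cnt_nonneg {Ω : Type} [Fintype Ω] (Q : Ω → Prop) : 0 ≤ cnt Q := by
  unfold cnt; positivity

lemma cnt_mono {Ω : Type} [Fintype Ω] {Q Q' : Ω → Prop} (h : ∀ ω, Q ω → Q' ω) :
    cnt Q ≤ cnt Q' := by
  classical
  unfold cnt
  exact_mod_cast Finset.card_le_card (fun ω hω => by
    simp only [Finset.mem_filter, Finset.mem_univ, true_and] at hω ⊢; exact h ω hω)

lemma cnt_congr {Ω : Type} [Fintype Ω] {Q Q' : Ω → Prop} (h : ∀ ω, Q ω ↔ Q' ω) :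
    cnt Q = cnt Q' := by
  have : Q = Q' := funext (fun ω => propext (h ω))
  rw [this]

lemma cnt_split {Ω : Type} [Fintype Ω] (Q R : Ω → Prop) :
    cnt (fun ω => R ω ∧ Q ω) + cnt (fun ω => ¬ R ω ∧ Q ω) = cnt Q := by
  classical
  unfold cnt
  have := Finset.card_filter_add_card_filter_not (s := univ.filter Q) R
  simp only [Finset.filter_filter] at this
  rw [← this]
  push_cast
  congr 3
  · ext ω; simp [and_comm]
  · ext ω; simp [and_comm]

theorem lll {Ω ι : Type} [Fintype Ω] [Nonempty Ω] [Fintype ι] [DecidableEq ι]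
    (A : ι → Ω → Prop) (Γ : ι → Finset ι) (N : ℕ) (p : ℝ) (hp0 : 0 ≤ p)
    (hΓ : ∀ i, (Γ i).card ≤ N)
    (hind : ∀ i (S : Finset ι), Disjoint S (Γ i) →
      cnt (fun ω => A i ω ∧ ∀ j ∈ S, ¬ A j ω) ≤ p * cnt (fun ω => ∀ j ∈ S, ¬ A j ω))
    (hp : p * (4 * (N + 1)) ≤ 1) : ∃ ω, ∀ i, ¬ A i ω := by
  classical
  set x : ℝ := 1 / (2 * (N + 1)) with hx
  have hN : (0 : ℝ) < N + 1 := by positivity
  have hx0 : 0 < x := by positivity
  have hxN : x * (N + 1) = 1 / 2 := by rw [hx]; field_simp
  have hx1 : x ≤ 1 / 2 := by nlinarith [(Nat.cast_nonneg N : (0 : ℝ) ≤ N)]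
  have hpx : 2 * p ≤ x := by
    rw [hx, le_div_iff₀ (by positivity)]; nlinarith
  let c : Finset ι → ℝ := fun S => cnt (fun ω => ∀ j ∈ S, ¬ A j ω)
  let cA : ι → Finset ι → ℝ := fun i S => cnt (fun ω => A i ω ∧ ∀ j ∈ S, ¬ A j ω)
  have hins : ∀ j S, c (insert j S) = c S - cA j S := by
    intro j S
    have := cnt_split (fun ω => ∀ j ∈ S, ¬ A j ω) (A j)
    have h2 : c (insert j S) = cnt (fun ω => ¬ A j ω ∧ ∀ j ∈ S, ¬ A j ω) :=
      cnt_congr (fun ω => by simp)
    simp only [c, cA] at *
    linarith
  have aux : ∀ n, (∀ S : Finset ι, S.card < n → ∀ i, cA i S ≤ x * c S) →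
      ∀ T S : Finset ι, Disjoint T S → (T ∪ S).card ≤ n → (1 - x) ^ T.card * c S ≤ c (T ∪ S) := by
    intro n hn T
    induction T using Finset.induction_on with
    | empty => intro S _ _; simp
    | insert j T hj ih =>
      intro S hd hc
      rw [Finset.disjoint_insert_left] at hd
      have hj' : j ∉ T ∪ S := by simp [hj, hd.1]
      rw [Finset.insert_union, Finset.card_insert_of_notMem hj'] at hc
      rw [Finset.insert_union, hins, Finset.card_insert_of_notMem hj, pow_succ]
      have h1 := ih S hd.2 (by omega)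
      have h2 := hn (T ∪ S) (by omega) j
      nlinarith
  have main : ∀ n, ∀ S : Finset ι, S.card < n → ∀ i, cA i S ≤ x * c S := by
    intro n
    induction n with
    | zero => intro S h; omega
    | succ n ih =>
      intro S hS i
      have h1 := aux n ih (S ∩ Γ i) (S \ Γ i)
        (Finset.disjoint_of_subset_left Finset.inter_subset_right Finset.disjoint_sdiff)
        (by rw [Finset.union_comm, Finset.sdiff_union_inter]; omega)
      rw [Finset.union_comm, Finset.sdiff_union_inter] at h1
      have h2 : cA i S ≤ cA i (S \ Γ i) :=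
        cnt_mono (fun ω h => ⟨h.1, fun j hj => h.2 j (Finset.mem_sdiff.1 hj).1⟩)
      have h3 : cA i (S \ Γ i) ≤ p * c (S \ Γ i) := hind i _ Finset.sdiff_disjoint
      have h4 : (1 / 2 : ℝ) ≤ (1 - x) ^ (S ∩ Γ i).card := by
        have h5 := one_add_mul_le_pow (a := -x) (by linarith) (S ∩ Γ i).card
        have h6 : ((S ∩ Γ i).card : ℝ) ≤ N := by
          exact_mod_cast (Finset.card_le_card Finset.inter_subset_right).trans (hΓ i)
        rw [← sub_eq_add_neg] at h5
        nlinarith
      have h7 : 0 ≤ c (S \ Γ i) := cnt_nonneg _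
      have h8 : 0 ≤ c S := cnt_nonneg _
      have h9 : c (S \ Γ i) ≤ 2 * c S := by nlinarith
      nlinarith
  have h1 := aux (Fintype.card ι) (main _) univ ∅ (by simp) (by simp)
  have h2 : 0 < c ∅ := by
    simp only [c, cnt]
    simp [Fintype.card_pos]
  have h3 : 0 < (1 - x) ^ (univ : Finset ι).card := pow_pos (by linarith) _
  have h4 : 0 < c (univ ∪ ∅) := lt_of_lt_of_le (mul_pos h3 h2) h1
  simp only [c, cnt] at h4
  obtain ⟨ω, hω⟩ := Finset.card_pos.1 (by exact_mod_cast h4)
  simp only [Finset.union_empty, Finset.mem_filter, Finset.mem_univ, true_and, forall_const] at hω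
  exact ⟨ω, hω⟩

lemma cnt_indep {κ : Type} [Fintype κ] [DecidableEq κ] (I : Finset κ) (A G : (κ → Bool) → Prop)
    (hA : ∀ ω ω', (∀ x ∈ I, ω x = ω' x) → A ω → A ω')
    (hG : ∀ ω ω', (∀ x, x ∉ I → ω x = ω' x) → G ω → G ω') :
    cnt (fun ω => A ω ∧ G ω) * Fintype.card (κ → Bool) = cnt A * cnt G := by
  classical
  unfold cnt
  have key : ((univ.filter (fun ω => A ω ∧ G ω)) ×ˢ (univ : Finset (κ → Bool))).card =
      ((univ.filter A) ×ˢ (univ.filter G)).card := by
    refine Finset.card_nbij' (fun q => (I.piecewise q.1 q.2, I.piecewise q.2 q.1))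
      (fun q => (I.piecewise q.1 q.2, I.piecewise q.2 q.1)) ?_ ?_ ?_ ?_
    · intro q hq
      simp only [Finset.coe_product, Finset.coe_filter, Finset.mem_univ, true_and, Set.mem_prod,
        Set.mem_ofPred_eq, Finset.coe_univ, Set.mem_univ, and_true] at hq ⊢
      exact ⟨hA _ _ (fun x hx => by simp [hx]) hq.1, hG _ _ (fun x hx => by simp [hx]) hq.2⟩
    · intro q hq
      simp only [Finset.coe_product, Finset.coe_filter, Finset.mem_univ, true_and, Set.mem_prod,
        Set.mem_ofPred_eq, Finset.coe_univ, Set.mem_univ, and_true] at hq ⊢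
      exact ⟨hA _ _ (fun x hx => by simp [hx]) hq.1, hG _ _ (fun x hx => by simp [hx]) hq.2⟩
    · intro q _
      ext x <;> by_cases hx : x ∈ I <;> simp [hx]
    · intro q _
      ext x <;> by_cases hx : x ∈ I <;> simp [hx]
  rw [Finset.card_product, Finset.card_product, Finset.card_univ] at key
  rw [← Nat.cast_mul, ← Nat.cast_mul, Nat.cast_inj]
  convert key

/-- Lower tail of a signed sum. -/
lemma tail_bound {κ : Type} [Fintype κ] [DecidableEq κ] (a : κ → ℝ) (t lam B : ℝ)
    (hlam : 0 ≤ lam) (hB : ∑ x, a x ^ 2 ≤ B) :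
    cnt (fun ω : κ → Bool => ∑ x, (if ω x then a x else - a x) ≤ - t) ≤
      Real.exp (lam ^ 2 * B / 2 - lam * t) * Fintype.card (κ → Bool) := by
  classical
  have h1 : ∑ ω : κ → Bool, Real.exp (- lam * ∑ x, (if ω x then a x else - a x)) =
      ∏ x, (2 * Real.cosh (lam * a x)) := by
    have := Finset.prod_univ_sum (fun _ : κ => (univ : Finset Bool))
      (fun x b => Real.exp (- lam * (if b then a x else - a x)))
    rw [Fintype.piFinset_univ] at this
    simp only [Finset.mul_sum, Real.exp_sum]
    rw [← this]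
    refine Finset.prod_congr rfl (fun x _ => ?_)
    rw [Real.cosh_eq]
    simp only [Fintype.univ_bool, Finset.mem_singleton, Bool.true_eq_false, not_false_eq_true,
      Finset.sum_insert, if_true, Finset.sum_singleton, Bool.false_eq_true, if_false]
    ring_nf
  have h2 : ∏ x, (2 * Real.cosh (lam * a x)) ≤
      Real.exp (lam ^ 2 * B / 2) * Fintype.card (κ → Bool) := by
    rw [Finset.prod_mul_distrib]
    have h3 : ∏ x, Real.cosh (lam * a x) ≤ Real.exp (lam ^ 2 * B / 2) := by
      calc ∏ x, Real.cosh (lam * a x) ≤ ∏ x, Real.exp ((lam * a x) ^ 2 / 2) :=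
            Finset.prod_le_prod (fun x _ => (Real.cosh_pos _).le)
              (fun x _ => Real.cosh_le_exp_half_sq _)
        _ = Real.exp (∑ x, (lam * a x) ^ 2 / 2) := by rw [Real.exp_sum]
        _ ≤ _ := by
          apply Real.exp_le_exp.2
          have : ∑ x, (lam * a x) ^ 2 / 2 = lam ^ 2 * (∑ x, a x ^ 2) / 2 := by
            rw [Finset.mul_sum, Finset.sum_div]
            exact Finset.sum_congr rfl (fun x _ => by ring)
          rw [this]
          have := mul_le_mul_of_nonneg_left hB (sq_nonneg lam)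
          linarith
    have h4 : (∏ _x : κ, (2 : ℝ)) = Fintype.card (κ → Bool) := by simp
    rw [h4, mul_comm]
    exact mul_le_mul_of_nonneg_right h3 (by positivity)
  have h5 : cnt (fun ω : κ → Bool => ∑ x, (if ω x then a x else - a x) ≤ - t) *
      Real.exp (lam * t) ≤
      ∑ ω : κ → Bool, Real.exp (- lam * ∑ x, (if ω x then a x else - a x)) := by
    unfold cnt
    rw [← nsmul_eq_mul, ← Finset.sum_const]
    refine le_trans (Finset.sum_le_sum ?_)
      (Finset.sum_le_sum_of_subset_of_nonneg (Finset.filter_subset _ _)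
        (fun ω _ _ => (Real.exp_pos _).le))
    intro ω hω
    have := (Finset.mem_filter.1 hω).2
    apply Real.exp_le_exp.2
    nlinarith
  rw [Real.exp_sub, div_mul_eq_mul_div, le_div_iff₀ (Real.exp_pos _)]
  linarith

end Pool.Agent.Lib.MP_04ab3e_co
end

-- part Pool.Agent.Lib.MP_04ab3e_co.Partition
section

/-! Existence of a good balanced role assignment when degrees are bounded. -/

set_option linter.unusedSectionVars false

namespace Pool.Agent.Lib.MP_04ab3e_co

open Finset

variable {V : Type} [DecidableEq V] [Fintype V] {D : V → V → Prop}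

theorem exists_partition (δ L d : ℕ) (hδ : ∀ u, δ ≤ (nbr D u).card)
    (hL : ∀ u, (nbr D u).card ≤ L) (hδ0 : 0 < δ) (hd : 2 * d ≤ δ)
    (hnum : Real.exp (- ((δ : ℝ) - 2 * d) ^ 2 / (4 * δ)) * (4 * (((δ * (2 * (2 * L)) : ℕ) : ℝ) + 1)) ≤ 1) :
    ∃ φ : V → Bool, (∀ u, d ≤ degA D (fun x => x.2 = φ x.1) u) ∧
      ∀ r ρ, 2 * r + 2 ≤ Fintype.card V → r + 1 ≤ (univ.filter (fun v => φ v = ρ)).card := by
  classical
  set n := Fintype.card V with hn
  let e : V ≃ Fin n := Fintype.equivFin V
  let var : V → Fin n := fun v => ⟨(e v : ℕ) / 2, lt_of_le_of_lt (Nat.div_le_self _ _) (e v).2⟩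
  let par : V → Bool := fun v => decide ((e v : ℕ) % 2 = 1)
  have hC : ∀ u, ∃ C ⊆ nbr D u, C.card = δ := fun u => Finset.exists_subset_card_eq (hδ u)
  choose C hC1 hC2 using hC
  let sg : V × Bool → V → ℝ := fun u w => if (!par w) = (!u.2) then 1 else -1
  let a : V × Bool → Fin n → ℝ := fun u x => ∑ w ∈ (C u).filter (fun w => var w = x), sg u w
  set t : ℝ := (δ : ℝ) - 2 * d with ht
  have ht0 : 0 ≤ t := by
    have : (2 * d : ℝ) ≤ δ := by exact_mod_cast hd
    linarith
  let A : V × Bool → (Fin n → Bool) → Prop :=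
    fun u ω => ∑ x, (if ω x then a u x else - a u x) ≤ - t
  let I : V × Bool → Finset (Fin n) := fun u => (C u).image var
  have hfib : ∀ x : Fin n, (univ.filter (fun w => var w = x)).card ≤ 2 := by
    intro x
    have : (univ.filter (fun w => var w = x)).card ≤ ({2 * (x : ℕ), 2 * (x : ℕ) + 1} : Finset ℕ).card := by
      refine Finset.card_le_card_of_injOn (fun w => (e w : ℕ)) ?_ ?_
      · intro w hw
        have h1 := (Finset.mem_filter.1 hw).2
        have h2 : (e w : ℕ) / 2 = x := congrArg Fin.val h1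
        simp only [Finset.coe_insert, Finset.coe_singleton, Set.mem_insert_iff,
          Set.mem_singleton_iff]
        omega
      · intro w _ w' _ h
        exact e.injective (Fin.ext h)
    exact this.trans Finset.card_le_two
  have ha0 : ∀ u x, x ∉ I u → a u x = 0 := by
    intro u x hx
    apply Finset.sum_eq_zero
    intro w hw
    rw [Finset.mem_filter] at hw
    exact absurd (Finset.mem_image.2 ⟨w, hw.1, hw.2⟩) hx
  have hdep : ∀ u ω ω', (∀ x ∈ I u, ω x = ω' x) → A u ω → A u ω' := by
    intro u ω ω' h hA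
    have : ∑ x, (if ω x then a u x else - a u x) = ∑ x, (if ω' x then a u x else - a u x) := by
      refine Finset.sum_congr rfl (fun x _ => ?_)
      by_cases hx : x ∈ I u
      · rw [h x hx]
      · rw [ha0 u x hx]; simp
    simp only [A] at hA ⊢
    rwa [← this]
  have hsq : ∀ u, ∑ x, a u x ^ 2 ≤ 2 * δ := by
    intro u
    have h1 : ∀ x, a u x ^ 2 ≤ 2 * (((C u).filter (fun w => var w = x)).card : ℝ) := by
      intro x
      have h2 : |a u x| ≤ (((C u).filter (fun w => var w = x)).card : ℝ) := by
        refine (Finset.abs_sum_le_sum_abs _ _).trans (le_of_eq ?_)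
        rw [Finset.card_eq_sum_ones]
        push_cast
        refine Finset.sum_congr rfl (fun w _ => ?_)
        simp only [sg]; split_ifs <;> simp
      have h3 : (((C u).filter (fun w => var w = x)).card : ℝ) ≤ 2 := by
        exact_mod_cast (Finset.card_le_card (Finset.filter_subset_filter _
          (Finset.subset_univ _))).trans (hfib x)
      rw [← sq_abs]
      nlinarith [abs_nonneg (a u x)]
    refine (Finset.sum_le_sum (fun x _ => h1 x)).trans (le_of_eq ?_)
    rw [← Finset.mul_sum, ← hC2 u, Finset.card_eq_sum_card_fiberwise (f := var) (t := univ)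
      (fun _ _ => Finset.mem_univ _)]
    push_cast; rfl
  set p : ℝ := Real.exp (- t ^ 2 / (4 * δ)) with hp
  have hδR : (0 : ℝ) < δ := by exact_mod_cast hδ0
  have htail : ∀ u, cnt (A u) ≤ p * Fintype.card (Fin n → Bool) := by
    intro u
    have := tail_bound (a u) t (t / (2 * δ)) (2 * δ) (by positivity) (hsq u)
    have e2 : (t / (2 * δ)) ^ 2 * (2 * δ) / 2 - t / (2 * δ) * t = - t ^ 2 / (4 * δ) := by
      field_simp; ring
    rwa [e2] at this
  let Γ : V × Bool → Finset (V × Bool) := fun u => univ.filter (fun u' => ¬ Disjoint (I u') (I u))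
  have hback : ∀ w : V, (univ.filter (fun u' : V × Bool => w ∈ nbr D u')).card ≤ 2 * L := by
    intro w
    have : univ.filter (fun u' : V × Bool => w ∈ nbr D u') ⊆
        (nbr D (w, false)).image (fun v => (v, true)) ∪
          (nbr D (w, true)).image (fun v => (v, false)) := by
      intro u' hu'
      have h1 := adj_symm (mem_nbr.1 (Finset.mem_filter.1 hu').2)
      have h2 := mem_nbr_of_adj h1
      obtain ⟨v, b⟩ := u'
      cases b
      · exact Finset.mem_union_right _ (Finset.mem_image.2 ⟨v, h2, rfl⟩)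
      · exact Finset.mem_union_left _ (Finset.mem_image.2 ⟨v, h2, rfl⟩)
    have h3 := (Finset.card_le_card this).trans (Finset.card_union_le _ _)
    have h4 := Finset.card_image_le (s := nbr D (w, false)) (f := fun v => (v, true))
    have h5 := Finset.card_image_le (s := nbr D (w, true)) (f := fun v => (v, false))
    have := hL (w, false)
    have := hL (w, true)
    omega
  have hΓ : ∀ u, (Γ u).card ≤ δ * (2 * (2 * L)) := by
    intro u
    have : Γ u ⊆ (I u).biUnion (fun x => (univ.filter (fun w => var w = x)).biUnion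
        (fun w => univ.filter (fun u' : V × Bool => w ∈ nbr D u'))) := by
      intro u' hu'
      obtain ⟨x, h1, h2⟩ := Finset.not_disjoint_iff.1 (Finset.mem_filter.1 hu').2
      obtain ⟨w, hw, rfl⟩ := Finset.mem_image.1 h1
      simp only [Finset.mem_biUnion, Finset.mem_filter, Finset.mem_univ, true_and]
      exact ⟨_, h2, w, rfl, hC1 u' hw⟩
    refine (Finset.card_le_card this).trans ((Finset.card_biUnion_le_card_mul _ _ (2 * (2 * L))
      (fun x _ => ?_)).trans (Nat.mul_le_mul_right _ (Finset.card_image_le.trans (hC2 u).le)))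
    exact (Finset.card_biUnion_le_card_mul _ _ (2 * L) (fun w _ => hback w)).trans
      (Nat.mul_le_mul_right _ (hfib x))
  obtain ⟨ω, hω⟩ := lll A Γ (δ * (2 * (2 * L))) p (Real.exp_pos _).le hΓ (by
    intro u S hS
    have h1 := cnt_indep (I u) (A u) (fun ω => ∀ j ∈ S, ¬ A j ω) (hdep u) (by
      intro ω ω' h hG j hj hA
      refine hG j hj (hdep j ω' ω (fun x hx => (h x ?_).symm) hA)
      have : j ∉ Γ u := Finset.disjoint_left.1 hS hj
      simp only [Γ, Finset.mem_filter, Finset.mem_univ, true_and, not_not] at this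
      exact Finset.disjoint_left.1 this hx)
    have hpos : (0 : ℝ) < Fintype.card (Fin n → Bool) := by exact_mod_cast Fintype.card_pos
    have h2 := htail u
    have h3 := cnt_nonneg (fun ω => ∀ j ∈ S, ¬ A j ω)
    refine le_of_mul_le_mul_right ?_ hpos
    rw [h1]
    nlinarith) hnum
  refine ⟨fun v => xor (ω (var v)) (par v), ?_, ?_⟩
  · intro u
    have h1 := hω u
    simp only [A, not_le] at h1
    have h2 : ∑ x, (if ω x then a u x else - a u x) =
        ∑ w ∈ C u, (if (!u.2) = xor (ω (var w)) (par w) then (1 : ℝ) else -1) := by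
      rw [← Finset.sum_fiberwise (s := C u) (g := var)]
      refine Finset.sum_congr rfl (fun x _ => ?_)
      simp only [a]
      rw [← Finset.sum_neg_distrib, ← Finset.sum_ite_irrel]
      refine Finset.sum_congr rfl (fun w hw => ?_)
      rw [(Finset.mem_filter.1 hw).2]
      simp only [sg]
      cases ω x <;> cases par w <;> cases u.2 <;> simp
    rw [h2, Finset.sum_ite] at h1
    simp only [Finset.sum_const, nsmul_eq_mul, mul_one, mul_neg] at h1
    have h3 := Finset.card_filter_add_card_filter_not (s := C u)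
      (fun w => (!u.2) = xor (ω (var w)) (par w))
    rw [hC2 u] at h3
    have h4 : ((C u).filter (fun w => (!u.2) = xor (ω (var w)) (par w))).card ≤
        degA D (fun x => x.2 = xor (ω (var x.1)) (par x.1)) u := by
      unfold degA
      apply Finset.card_le_card
      intro w hw
      simp only [Finset.mem_filter] at hw ⊢
      exact ⟨hC1 u hw.1, hw.2⟩
    have h5 : (d : ℝ) ≤ ((C u).filter (fun w => (!u.2) = xor (ω (var w)) (par w))).card := by
      have h6 := congrArg (Nat.cast : ℕ → ℝ) h3
      push_cast at h6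
      linarith
    exact le_trans (by exact_mod_cast h5) h4
  · intro r ρ hr
    let f : Fin (r + 1) → V := fun i =>
      e.symm ⟨2 * i + (if ω ⟨i, by omega⟩ = ρ then 0 else 1), by split_ifs <;> omega⟩
    have h1 : (univ : Finset (Fin (r + 1))).card ≤
        (univ.filter (fun v => xor (ω (var v)) (par v) = ρ)).card := by
      refine Finset.card_le_card_of_injOn f ?_ ?_
      · intro i _
        simp only [Finset.coe_filter, Finset.mem_univ, true_and, Set.mem_ofPred_eq]
        have h2 : var (f i) = ⟨i, by omega⟩ := by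
          apply Fin.ext
          simp only [var, f, Equiv.apply_symm_apply]
          split_ifs <;> omega
        rw [h2]
        simp only [par, f, Equiv.apply_symm_apply]
        split_ifs with h
        · rw [h]
          simp
        · have : (2 * (i : ℕ) + 1) % 2 = 1 := by omega
          simp only [this, decide_true, Bool.xor_true]
          revert h; cases ω _ <;> cases ρ <;> simp
      · intro i _ j _ h
        have h3 := congrArg Fin.val (e.symm.injective h)
        simp only at h3
        apply Fin.ext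
        split_ifs at h3 <;> omega
    simpa using h1

end Pool.Agent.Lib.MP_04ab3e_co
end

-- part Pool.Agent.Lib.MP_04ab3e_co.Tail
section

/-! Degree bound via rooted tails. -/

set_option linter.unusedSectionVars false

namespace Pool.Agent.Lib.MP_04ab3e_co

open Finset

lemma indep_set {α : Type} [DecidableEq α] (η : ℕ) (out : α → Finset α) :
    ∀ (n : ℕ) (S : Finset α), S.card = n → (∀ i ∈ S, (out i).card ≤ η) →
      ∃ I ⊆ S, S.card ≤ (2 * η + 1) * I.card ∧ ∀ i ∈ I, ∀ j ∈ I, i ≠ j → j ∉ out i := by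
  intro n
  induction n using Nat.strong_induction_on with
  | _ n ih =>
    intro S hS hout
    rcases S.eq_empty_or_nonempty with rfl | hne
    · exact ⟨∅, by simp, by simp, by simp⟩
    have hsum : ∑ v ∈ S, (S.filter (fun i => v ∈ out i)).card ≤ ∑ _v ∈ S, η := by
      have : ∑ v ∈ S, (S.filter (fun i => v ∈ out i)).card =
          ∑ i ∈ S, (S.filter (fun v => v ∈ out i)).card := by
        simp only [Finset.card_filter]
        exact Finset.sum_comm
      rw [this]
      refine Finset.sum_le_sum (fun i hi => le_trans (Finset.card_le_card ?_) (hout i hi))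
      intro v hv; exact (Finset.mem_filter.1 hv).2
    obtain ⟨v, hv, hvle⟩ := Finset.exists_le_of_sum_le hne hsum
    set X : Finset α := insert v (out v ∪ S.filter (fun i => v ∈ out i)) with hX
    have hXc : X.card ≤ 2 * η + 1 := by
      have h1 := Finset.card_insert_le v (out v ∪ S.filter (fun i => v ∈ out i))
      have h2 := Finset.card_union_le (out v) (S.filter (fun i => v ∈ out i))
      have h3 := hout v hv
      rw [hX]
      omega
    have hlt : (S \ X).card < n := by
      rw [← hS]
      apply Finset.card_lt_card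
      refine ⟨Finset.sdiff_subset, fun h => ?_⟩
      have := h hv
      simp [hX] at this
    obtain ⟨I, hIS, hIc, hI⟩ := ih _ hlt (S \ X) rfl
      (fun i hi => hout i (Finset.mem_sdiff.1 hi).1)
    have hvI : v ∉ I := fun h => by
      have := hIS h
      simp [hX] at this
    refine ⟨insert v I, ?_, ?_, ?_⟩
    · intro x hx
      rcases Finset.mem_insert.1 hx with rfl | hx
      · exact hv
      · exact (Finset.mem_sdiff.1 (hIS hx)).1
    · rw [Finset.card_insert_of_notMem hvI]
      have := Finset.le_card_sdiff X S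
      have h4 : S.card ≤ (S \ X).card + X.card := by omega
      nlinarith
    · intro i hi j hj hij
      rcases Finset.mem_insert.1 hi with hi' | hi'
      · rcases Finset.mem_insert.1 hj with hj' | hj'
        · exact absurd (hi'.trans hj'.symm) hij
        · intro h
          have := hIS hj'
          rw [hi'] at h
          simp [hX, h] at this
      · rcases Finset.mem_insert.1 hj with hj' | hj'
        · intro h
          have := hIS hi'
          rw [hj'] at h
          simp only [hX, Finset.mem_sdiff, Finset.mem_insert, Finset.mem_union, Finset.mem_filter,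
            not_or] at this
          exact this.2.2.2 ⟨this.1, h⟩
        · exact hI i hi' j hj' hij

lemma zlemma {ι V : Type} [DecidableEq ι] [DecidableEq V] (c : ℕ) (N : ι → Finset V) :
    ∀ (n : ℕ) (R : Finset V) (Z : Finset ι), R.card = n → c * R.card < Z.card →
      ∃ R' ⊆ R, ∃ Z' ⊆ Z, Z'.Nonempty ∧ (∀ z ∈ Z', N z ∩ R ⊆ R') ∧
        ∀ r ∈ R', c < (Z'.filter (fun z => r ∈ N z)).card := by
  intro n
  induction n with
  | zero =>
    intro R Z hR hZ
    have : R = ∅ := Finset.card_eq_zero.1 hR
    subst this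
    exact ⟨∅, by simp, Z, subset_rfl, Finset.card_pos.1 (by omega), by simp, by simp⟩
  | succ n ih =>
    intro R Z hR hZ
    by_cases h : ∀ r ∈ R, c < (Z.filter (fun z => r ∈ N z)).card
    · exact ⟨R, subset_rfl, Z, subset_rfl, Finset.card_pos.1 (by omega),
        fun z _ => Finset.inter_subset_right, h⟩
    · push Not at h
      obtain ⟨r, hr, hrc⟩ := h
      have hc : (R.erase r).card = n := by rw [Finset.card_erase_of_mem hr]; omega
      have h2 := Finset.card_filter_add_card_filter_not (s := Z) (fun z => r ∈ N z)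
      obtain ⟨R', hR', Z', hZ', hne, h3, h4⟩ := ih (R.erase r) (Z.filter (fun z => ¬ r ∈ N z)) hc
        (by rw [hc]; rw [hR] at hZ; nlinarith)
      refine ⟨R', hR'.trans (Finset.erase_subset _ _), Z', hZ'.trans (Finset.filter_subset _ _),
        hne, ?_, h4⟩
      intro z hz x hx
      apply h3 z hz
      have hz' := (Finset.mem_filter.1 (hZ' hz)).2
      rw [Finset.mem_inter] at hx ⊢
      refine ⟨hx.1, Finset.mem_erase.2 ⟨?_, hx.2⟩⟩
      rintro rfl
      exact hz' hx.1

variable {V : Type} [DecidableEq V] [Fintype V] {D : V → V → Prop}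

lemma alt_path {ι : Type} [DecidableEq ι] (Z : Finset ι) (u : ι → V × Bool)
    (tl : ι → List (V × Bool)) (R R' : Finset V) (ρ : Bool) (q θ c : ℕ)
    (hne : Z.Nonempty)
    (hP : ∀ i ∈ Z, P D (u i :: tl i)) (hR : ∀ i ∈ Z, Disjoint (vs (u i :: tl i)) R)
    (hd : ∀ i ∈ Z, ∀ j ∈ Z, i ≠ j → Disjoint (vs (u i :: tl i)) (vs (u j :: tl j)))
    (hρ : ∀ i ∈ Z, (u i).2 = ρ) (hq : ∀ i ∈ Z, q ≤ (u i :: tl i).length)
    (hθ : ∀ i ∈ Z, θ ≤ (nbr D (u i) ∩ R).card) (hsub : ∀ i ∈ Z, nbr D (u i) ∩ R ⊆ R')
    (hpop : ∀ r ∈ R', c < (Z.filter (fun z => r ∈ nbr D (u z))).card)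
    (hθc : θ ≤ c) (hθ1 : 1 ≤ θ) :
    ∃ l, P D l ∧ 2 * q + 2 * θ ≤ l.length + 1 := by
  -- the invariant
  let Inv : ℕ → Prop := fun h => ∃ i ∈ Z, ∃ L : List (V × Bool), ∃ J ⊆ Z, ∃ Ru ⊆ R,
    P D (u i :: L) ∧ q + 2 * h ≤ (u i :: L).length ∧ J.card ≤ h + 1 ∧ Ru.card ≤ h ∧
      vs (u i :: L) ⊆ Ru ∪ J.biUnion (fun j => vs (u j :: tl j))
  have step : ∀ h, h < θ → ∀ i ∈ Z, ∀ L : List (V × Bool), ∀ J ⊆ Z, ∀ Ru ⊆ R,
      J.card ≤ h + 1 → Ru.card ≤ h →
      vs (u i :: L) ⊆ Ru ∪ J.biUnion (fun j => vs (u j :: tl j)) →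
      ∃ r ∈ R, ∃ j ∈ Z, r ∉ vs (u i :: L) ∧ Disjoint (vs (u i :: L)) (vs (u j :: tl j)) ∧
        adj D (u i) (r, !ρ) ∧ adj D (u j) (r, !ρ) := by
    intro h hh i hi L J hJ Ru hRu hJc hRc hvs
    have h1 : Ru.card < (nbr D (u i) ∩ R).card := by have := hθ i hi; omega
    obtain ⟨r, hr, hrRu⟩ := Finset.exists_mem_notMem_of_card_lt_card h1
    have hrR' := hsub i hi hr
    have h2 : J.card < (Z.filter (fun z => r ∈ nbr D (u z))).card := by
      have := hpop r hrR'; omega
    obtain ⟨j, hj, hjJ⟩ := Finset.exists_mem_notMem_of_card_lt_card h2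
    rw [Finset.mem_filter] at hj
    rw [Finset.mem_inter] at hr
    refine ⟨r, hr.2, j, hj.1, ?_, ?_, ?_, ?_⟩
    · intro hmem
      rcases Finset.mem_union.1 (hvs hmem) with h3 | h3
      · exact hrRu h3
      · obtain ⟨j', hj', h4⟩ := Finset.mem_biUnion.1 h3
        exact Finset.disjoint_left.1 (hR j' (hJ hj')) h4 hr.2
    · rw [Finset.disjoint_left]
      intro x hx hx'
      rcases Finset.mem_union.1 (hvs hx) with h3 | h3
      · exact Finset.disjoint_left.1 (hR j hj.1) hx' (hRu h3)
      · obtain ⟨j', hj', h4⟩ := Finset.mem_biUnion.1 h3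
        have hjj : j' ≠ j := fun e => hjJ (e ▸ hj')
        exact Finset.disjoint_left.1 (hd j' (hJ hj') j hj.1 hjj) h4 hx'
    · have := mem_nbr.1 hr.1; rwa [hρ i hi] at this
    · have := mem_nbr.1 hj.2; rwa [hρ j hj.1] at this
  have inv : ∀ h, h < θ → Inv h := by
    intro h
    induction h with
    | zero =>
      intro _
      obtain ⟨i, hi⟩ := hne
      exact ⟨i, hi, tl i, {i}, by simpa using hi, ∅, by simp, hP i hi, by simpa using hq i hi,
        by simp, by simp, by simp⟩
    | succ h ih =>
      intro hh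
      obtain ⟨i, hi, L, J, hJ, Ru, hRu, hPL, hlen, hJc, hRc, hvs⟩ := ih (by omega)
      obtain ⟨r, hr, j, hj, h1, h2, h3, h4⟩ := step h (by omega) i hi L J hJ Ru hRu hJc hRc hvs
      have hujr : (u j).1 ≠ r := by
        intro e
        exact Finset.disjoint_left.1 (hR j hj) (fst_mem_vs (List.mem_cons_self)) (e ▸ hr)
      refine ⟨j, hj, (r, !ρ) :: u i :: L, insert j J, ?_, insert r Ru, ?_, ?_, ?_, ?_, ?_, ?_⟩
      · exact Finset.insert_subset hj hJ
      · exact Finset.insert_subset hr hRu
      · refine P.cons (P.cons hPL h1 ?_) ?_ ?_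
        · intro y hy
          simp only [List.head?_cons, Option.mem_def, Option.some.injEq] at hy
          subst hy; exact adj_symm h3
        · rw [vs_cons (r, !ρ), Finset.mem_insert, not_or]
          exact ⟨hujr, fun hm => Finset.disjoint_left.1 h2 hm (fst_mem_vs (List.mem_cons_self))⟩
        · intro y hy
          simp only [List.head?_cons, Option.mem_def, Option.some.injEq] at hy
          subst hy; exact h4
      · simp only [List.length_cons] at hlen ⊢; omega
      · have := Finset.card_insert_le j J; omega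
      · have := Finset.card_insert_le r Ru; omega
      · intro x hx
        rw [vs_cons (u j), vs_cons (r, !ρ), Finset.mem_insert, Finset.mem_insert] at hx
        rw [Finset.mem_union, Finset.biUnion_insert, Finset.mem_union, Finset.mem_insert]
        rcases hx with rfl | rfl | hx
        · exact Or.inr (Or.inl (fst_mem_vs (List.mem_cons_self)))
        · exact Or.inl (Or.inl rfl)
        · rcases Finset.mem_union.1 (hvs hx) with h5 | h5
          · exact Or.inl (Or.inr h5)
          · exact Or.inr (Or.inr h5)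
  obtain ⟨i, hi, L, J, hJ, Ru, hRu, hPL, hlen, hJc, hRc, hvs⟩ := inv (θ - 1) (by omega)
  obtain ⟨r, hr, j, hj, h1, h2, h3, h4⟩ := step (θ - 1) (by omega) i hi L J hJ Ru hRu hJc hRc hvs
  refine ⟨(u i :: L).reverse ++ (r, !ρ) :: u j :: tl j, P.link hPL (hP j hj) h2 h1 ?_ h3 h4, ?_⟩
  · exact fun hm => Finset.disjoint_left.1 (hR j hj) hm hr
  · have := hq j hj
    simp only [List.length_append, List.length_reverse, List.length_cons] at this hlen ⊢
    omega

/-- A path ending at a neighbour of `y` and avoiding `R`. -/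
def Rooted (D : V → V → Prop) (y : V × Bool) (R : Finset V) (l : List (V × Bool)) : Prop :=
  P D l ∧ (∃ x ∈ l.getLast?, adj D y x) ∧ Disjoint (vs l) R

lemma Rooted.ne_nil {y : V × Bool} {R : Finset V} {l : List (V × Bool)} (h : Rooted D y R l) :
    l ≠ [] := by
  rintro rfl
  obtain ⟨x, hx, _⟩ := h.2.1
  simp at hx

lemma Rooted.of_append {y : V × Bool} {R : Finset V} {l₁ l₂ : List (V × Bool)}
    (h : Rooted D y R l₂) (hP : P D (l₁ ++ l₂)) (hd : Disjoint (vs l₁) R) :
    Rooted D y R (l₁ ++ l₂) := by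
  refine ⟨hP, ?_, ?_⟩
  · obtain ⟨x, hx, hxy⟩ := h.2.1
    refine ⟨x, ?_, hxy⟩
    rw [List.getLast?_append, Option.mem_def.1 hx]; simp
  · rw [vs_append, Finset.disjoint_union_left]; exact ⟨hd, h.2.2⟩

lemma Rooted.right {y : V × Bool} {R : Finset V} {l₁ l₂ : List (V × Bool)}
    (h : Rooted D y R (l₁ ++ l₂)) (hne : l₂ ≠ []) : Rooted D y R l₂ := by
  refine ⟨h.1.right, ?_, ?_⟩
  · obtain ⟨x, hx, hxy⟩ := h.2.1
    refine ⟨x, ?_, hxy⟩
    rwa [List.getLast?_append_of_ne_nil _ hne] at hx
  · have := h.2.2
    rw [vs_append, Finset.disjoint_union_left] at this; exact this.2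

end Pool.Agent.Lib.MP_04ab3e_co
end
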